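import Mathlib

set_option autoImplicit false

/-!
Kakutani's fixed point theorem: a bounded group of linear operators which preserves a nonempty
compact convex set has a fixed point in it.
-/

namespace Pool.Agent.Comb7f333f.DPart

open Filter Topology

section

variable {E : Type*} [NormedAddCommGroup E] [NormedSpace ℝ E] {G : Type*} [Group G]
  (T : G →* (E →L[ℝ] E)) (K : ℝ) (hT : ∀ g, ‖T g‖ ≤ K)

include hT

theorem fp_le_K (g : G) (x : E) : ‖T g x‖ ≤ K * ‖x‖ :=
  ((T g).le_opNorm x).trans (mul_le_mul_of_nonneg_right (hT g) (norm_nonneg x))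

theorem fp_bdd (x : E) : BddAbove (Set.range fun g => ‖T g x‖) :=
  ⟨K * ‖x‖, by rintro _ ⟨g, rfl⟩; exact fp_le_K T K hT g x⟩

/-- There is an invariant seminorm between the norm and a multiple of it. -/
theorem fp_exists_seminorm : ∃ p : Seminorm ℝ E, (∀ x, ‖x‖ ≤ p x) ∧ (∀ x, p x ≤ K * ‖x‖) ∧
    ∀ g x, p (T g x) = p x := by
  have hle : ∀ g x, ‖T g x‖ ≤ ⨆ g, ‖T g x‖ := fun g x => le_ciSup (fp_bdd T K hT x) g
  refine ⟨Seminorm.of (fun x => ⨆ g, ‖T g x‖) ?_ ?_, ?_, ?_, ?_⟩
  · intro x y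
    refine ciSup_le fun g => ?_
    rw [map_add]
    exact (norm_add_le _ _).trans (add_le_add (hle g x) (hle g y))
  · intro a x
    rw [Real.mul_iSup_of_nonneg (norm_nonneg a)]
    refine iSup_congr fun g => ?_
    rw [map_smul, norm_smul]
  · intro x
    have h1 := hle 1 x
    rw [map_one, one_apply_eq_self] at h1
    exact h1
  · intro x
    exact ciSup_le fun g => fp_le_K T K hT g x
  · intro g x
    have h2 : ∀ g' : G, T g' (T g x) = T (g' * g) x := by
      intro g'
      rw [map_mul, mul_apply_eq_comp]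
    have h3 : (⨆ g', ‖T g' (T g x)‖) = ⨆ g', ‖T g' x‖ := by
      apply le_antisymm
      · refine ciSup_le fun g' => ?_
        rw [h2]
        exact hle _ x
      · refine ciSup_le fun g' => ?_
        have h4 : T g' x = T (g' * g⁻¹) (T g x) := by rw [h2]; simp
        rw [h4]
        exact hle _ (T g x)
    exact h3

theorem exists_fixed (Q : Set E) (hQ : IsCompact Q)
    (hconv : Convex ℝ Q) (hne : Q.Nonempty) (hinv : ∀ g, ∀ q ∈ Q, T g q ∈ Q) :
    ∃ q ∈ Q, ∀ g, T g q = q := by
  classical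
  obtain ⟨p, hp1, hp2, hp3⟩ := fp_exists_seminorm T K hT
  have hK0 : 0 ≤ K := (norm_nonneg _).trans (hT 1)
  have hpc : Continuous p := by
    have hL : LipschitzWith (Real.toNNReal K) p := by
      refine LipschitzWith.of_le_add_mul _ fun x y => ?_
      have h1 : p x ≤ p y + p (x - y) := by
        have := map_add_le_add p y (x - y)
        rwa [add_sub_cancel] at this
      rw [Real.coe_toNNReal _ hK0, dist_eq_norm]
      linarith [hp2 (x - y)]
    exact hL.continuous
  -- a minimal invariant compact convex set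
  set 𝒮 : Set (Set E) := {S | IsClosed S ∧ S.Nonempty ∧ S ⊆ Q ∧ Convex ℝ S ∧
    ∀ g, ∀ q ∈ S, T g q ∈ S} with h𝒮
  have hQ𝒮 : Q ∈ 𝒮 := ⟨hQ.isClosed, hne, subset_rfl, hconv, hinv⟩
  obtain ⟨S, hS⟩ : ∃ S, Minimal (· ∈ 𝒮) S := by
    refine zorn_superset _ fun ch hch hchain => ?_
    rcases ch.eq_empty_or_nonempty with rfl | hne'
    · exact ⟨Q, hQ𝒮, fun s hs => absurd hs (Set.notMem_empty s)⟩
    · refine ⟨⋂₀ ch, ⟨isClosed_sInter fun t ht => (hch ht).1, ?_, ?_, ?_, ?_⟩, fun s hs =>
        Set.sInter_subset_of_mem hs⟩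
      · rw [Set.sInter_eq_iInter]
        have : Nonempty ch := hne'.coe_sort
        refine IsCompact.nonempty_iInter_of_directed_nonempty_isCompact_isClosed _
          (DirectedOn.directed_val (IsChain.directedOn hchain.symm)) (fun i => (hch i.2).2.1)
          (fun i => hQ.of_isClosed_subset (hch i.2).1 (hch i.2).2.2.1) fun i => (hch i.2).1
      · obtain ⟨t, ht⟩ := hne'
        exact (Set.sInter_subset_of_mem ht).trans (hch ht).2.2.1
      · exact convex_sInter fun t ht => (hch ht).2.2.2.1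
      · intro g q hq t ht
        exact (hch ht).2.2.2.2 g q (hq t ht)
  obtain ⟨hS1, hS2, hS3, hS4, hS5⟩ := hS.prop
  have hScomp : IsCompact S := hQ.of_isClosed_subset hS1 hS3
  -- the diameter
  obtain ⟨⟨a, b⟩, hab, hmax⟩ := (hScomp.prod hScomp).exists_isMaxOn (hS2.prod hS2)
    (f := fun z : E × E => p (z.1 - z.2))
    (hpc.comp (continuous_fst.sub continuous_snd)).continuousOn
  have hδ : ∀ x ∈ S, ∀ y ∈ S, p (x - y) ≤ p (a - b) := fun x hx y hy =>
    hmax (Set.mk_mem_prod hx hy)
  set δ := p (a - b) with hδdef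
  by_cases hδ0 : δ = 0
  · obtain ⟨q, hq⟩ := hS2
    refine ⟨q, hS3 hq, fun g => ?_⟩
    have h1 : p (T g q - q) ≤ 0 := (hδ _ (hS5 g q hq) _ hq).trans hδ0.le
    have h2 : ‖T g q - q‖ ≤ 0 := (hp1 _).trans h1
    exact sub_eq_zero.mp (norm_le_zero_iff.mp h2)
  exfalso
  have hδpos : 0 < δ := lt_of_le_of_ne (apply_nonneg p _) (Ne.symm hδ0)
  -- a finite net
  obtain ⟨t, htS, htcov⟩ := hScomp.elim_nhds_subcover (fun x => {y | p (y - x) < δ / 2})
    (fun x _ => by
      refine IsOpen.mem_nhds ?_ ?_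
      · exact isOpen_lt (hpc.comp (continuous_id.sub continuous_const)) continuous_const
      · simp only [Set.mem_ofPred_eq, sub_self, map_zero]
        linarith)
  have htne : t.Nonempty := by
    obtain ⟨q, hq⟩ := hS2
    have := htcov hq
    simp only [Set.mem_iUnion] at this
    obtain ⟨x, hx, _⟩ := this
    exact ⟨x, hx⟩
  have hn : (0 : ℝ) < t.card := by exact_mod_cast htne.card_pos
  set y0 : E := ∑ x ∈ t, (1 / (t.card : ℝ)) • x with hy0
  have hsum1 : ∑ _x ∈ t, (1 / (t.card : ℝ)) = 1 := by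
    rw [Finset.sum_const, nsmul_eq_mul]
    field_simp
  have hy0S : y0 ∈ S := hS4.sum_mem (fun _ _ => by positivity) hsum1 fun x hx => htS x hx
  set r : ℝ := (1 - 1 / (2 * t.card)) * δ with hr
  have hrδ : r < δ := by
    rw [hr]
    have : (0 : ℝ) < 1 / (2 * t.card) := by positivity
    nlinarith
  have hy0r : ∀ x ∈ S, p (x - y0) ≤ r := by
    intro x hx
    have h1 : x - y0 = ∑ z ∈ t, (1 / (t.card : ℝ)) • (x - z) := by
      simp_rw [smul_sub]
      rw [Finset.sum_sub_distrib, ← Finset.sum_smul, hsum1, one_smul]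
    have h2 : p (x - y0) ≤ ∑ z ∈ t, (1 / (t.card : ℝ)) * p (x - z) := by
      rw [h1]
      refine (Finset.le_sum_of_subadditive p (map_zero p).le (map_add_le_add p) _ _).trans ?_
      refine Finset.sum_le_sum fun z _ => ?_
      rw [map_smul_eq_mul, Real.norm_of_nonneg (by positivity)]
    obtain ⟨z0, hz0⟩ : ∃ z ∈ t, p (x - z) < δ / 2 := by
      have := htcov hx
      simp only [Set.mem_iUnion, Set.mem_ofPred_eq] at this
      obtain ⟨z, hz, hz'⟩ := this
      exact ⟨z, hz, hz'⟩
    have h3 : ∑ z ∈ t, (1 / (t.card : ℝ)) * p (x - z) ≤ r := by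
      rw [← Finset.mul_sum, ← Finset.add_sum_erase t _ hz0.1]
      have h4 : ∑ z ∈ t.erase z0, p (x - z) ≤ ((t.card : ℝ) - 1) * δ := by
        have : ∑ z ∈ t.erase z0, p (x - z) ≤ ∑ _z ∈ t.erase z0, δ :=
          Finset.sum_le_sum fun z hz => hδ x hx z (htS z (Finset.mem_of_mem_erase hz))
        refine this.trans ?_
        rw [Finset.sum_const, nsmul_eq_mul, Finset.card_erase_of_mem hz0.1,
          Nat.cast_sub htne.card_pos, Nat.cast_one]
      have h5 : (1 / (t.card : ℝ)) * (p (x - z0) + ∑ z ∈ t.erase z0, p (x - z)) ≤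
          (1 / (t.card : ℝ)) * (δ / 2 + ((t.card : ℝ) - 1) * δ) :=
        mul_le_mul_of_nonneg_left (add_le_add hz0.2.le h4) (by positivity)
      refine h5.trans (le_of_eq ?_)
      rw [hr]
      field_simp
      ring
    exact h2.trans h3
  -- a smaller set
  set S1 : Set E := {y | y ∈ S ∧ ∀ x ∈ S, p (x - y) ≤ r} with hS1def
  have hS1𝒮 : S1 ∈ 𝒮 := by
    refine ⟨?_, ⟨y0, hy0S, hy0r⟩, fun y hy => hS3 hy.1, ?_, ?_⟩
    · have h1 : S1 = S ∩ ⋂ x ∈ S, {y | p (x - y) ≤ r} := by
        ext y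
        simp only [hS1def, Set.mem_ofPred_eq, Set.mem_inter_iff, Set.mem_iInter]
      rw [h1]
      refine hS1.inter (isClosed_biInter fun x _ => ?_)
      exact isClosed_le (hpc.comp (continuous_const.sub continuous_id)) continuous_const
    · intro y hy y' hy' c d hc hd hcd
      refine ⟨hS4 hy.1 hy'.1 hc hd hcd, fun x hx => ?_⟩
      have h1 : x - (c • y + d • y') = c • (x - y) + d • (x - y') := by
        have : x = c • x + d • x := by rw [← add_smul, hcd, one_smul]
        conv_lhs => rw [this]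
        simp only [smul_sub]
        abel
      rw [h1]
      refine (map_add_le_add p _ _).trans ?_
      rw [map_smul_eq_mul, map_smul_eq_mul, Real.norm_of_nonneg hc, Real.norm_of_nonneg hd]
      have h2 := mul_le_mul_of_nonneg_left (hy.2 x hx) hc
      have h3 := mul_le_mul_of_nonneg_left (hy'.2 x hx) hd
      calc c * p (x - y) + d * p (x - y') ≤ c * r + d * r := add_le_add h2 h3
        _ = r := by rw [← add_mul, hcd, one_mul]
    · intro g y hy
      refine ⟨hS5 g y hy.1, fun x hx => ?_⟩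
      have h1 : x - T g y = T g (T g⁻¹ x - y) := by
        rw [map_sub]
        congr 1
        rw [← mul_apply_eq_comp, ← map_mul, mul_inv_cancel, map_one,
          one_apply_eq_self]
      rw [h1, hp3]
      exact hy.2 _ (hS5 _ _ hx)
  have hsub : S ⊆ S1 := hS.le_of_le hS1𝒮 fun y hy => hy.1
  have hb := hsub hab.2
  exact absurd (hb.2 a hab.1) (not_le.mpr hrδ)

end

end Pool.Agent.Comb7f333f.DPart
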