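import Mathlib
import Pool.Agent.Lib.MP_7f333f_an.D.Fp

set_option autoImplicit false

namespace Pool.Agent.Comb7f333f.DPart

open Filter Topology

/-- Abstract form: a totally bounded orbit of a bounded group has an average. -/
theorem fo_average {E : Type*} [NormedAddCommGroup E] [NormedSpace ℝ E] [CompleteSpace E]
    {G : Type*} [Group G] (T : G →* (E →L[ℝ] E)) (K : ℝ) (hT : ∀ g, ‖T g‖ ≤ K) (q : G → E)
    (hq : TotallyBounded (Set.range q)) (hTq : ∀ h g, ∃ g', T h (q g) = q g') :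
    ∃ B : E, (∀ g, T g B = B) ∧
      ∀ (F : E →L[ℝ] ℝ) (m : ℝ), (∀ g, m ≤ F (q g)) → m ≤ F B := by
  set Q : Set E := closure (convexHull ℝ (Set.range q)) with hQ
  have hmin : ∀ P : Set E, IsClosed P → Convex ℝ P → (∀ g, q g ∈ P) → Q ⊆ P := by
    intro P hP hc h
    refine closure_minimal (convexHull_min ?_ hc) hP
    rintro _ ⟨g, rfl⟩
    exact h g
  have hmem : ∀ g, q g ∈ Q := fun g => subset_closure (subset_convexHull ℝ _ ⟨g, rfl⟩)
  have hcpt : IsCompact Q :=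
    ((totallyBounded_convexHull.2 hq).closure).isCompact_of_isClosed isClosed_closure
  have hcv : Convex ℝ Q := (convex_convexHull ℝ _).closure
  have hinv : ∀ g, ∀ x ∈ Q, T g x ∈ Q := by
    intro h x hx
    refine hmin ((T h) ⁻¹' Q) (isClosed_closure.preimage (T h).continuous)
      (hcv.is_linear_preimage (T h).isBoundedLinearMap.toIsLinearMap) ?_ hx
    intro g
    obtain ⟨g', hg'⟩ := hTq h g
    rw [Set.mem_preimage, hg']
    exact hmem g'
  obtain ⟨B, hBQ, hB⟩ := exists_fixed T K hT Q hcpt hcv ⟨q 1, hmem 1⟩ hinv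
  refine ⟨B, hB, ?_⟩
  intro F m hm
  exact hmin {x | m ≤ F x} (isClosed_le continuous_const F.continuous)
    (convex_halfSpace_ge F.isBoundedLinearMap.toIsLinearMap m) hm hBQ

/-- The space of bounded bilinear forms. -/
def FoE (X : Type*) [NormedAddCommGroup X] [NormedSpace ℝ X] : Type _ := X →L[ℝ] X →L[ℝ] ℝ

section

variable {X : Type*} [NormedAddCommGroup X] [NormedSpace ℝ X] {G : Type*} [Group G]

noncomputable instance foNACG : NormedAddCommGroup (FoE X) :=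
  inferInstanceAs (NormedAddCommGroup (X →L[ℝ] X →L[ℝ] ℝ))

noncomputable instance foNS : NormedSpace ℝ (FoE X) :=
  inferInstanceAs (NormedSpace ℝ (X →L[ℝ] X →L[ℝ] ℝ))

instance foCS : CompleteSpace (FoE X) :=
  inferInstanceAs (CompleteSpace (X →L[ℝ] X →L[ℝ] ℝ))

/-- Evaluation of a form. -/
noncomputable def foEval (B : FoE X) (x y : X) : ℝ := (show X →L[ℝ] X →L[ℝ] ℝ from B) x y

theorem foEval_def (B : X →L[ℝ] X →L[ℝ] ℝ) (x y : X) : foEval (X := X) B x y = B x y := rfl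

theorem fo_ext {B C : FoE X} (h : ∀ x y, foEval B x y = foEval C x y) : B = C := by
  refine ContinuousLinearMap.ext fun x => ContinuousLinearMap.ext fun y => h x y

theorem foEval_add (B C : FoE X) (x y : X) : foEval (B + C) x y = foEval B x y + foEval C x y :=
  rfl

theorem foEval_smul (c : ℝ) (B : FoE X) (x y : X) : foEval (c • B) x y = c * foEval B x y :=
  rfl

theorem foEval_le (B : FoE X) (x y : X) : ‖foEval B x y‖ ≤ ‖B‖ * ‖x‖ * ‖y‖ :=
  ContinuousLinearMap.le_opNorm₂ (show X →L[ℝ] X →L[ℝ] ℝ from B) x y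

theorem fo_norm_le (B : FoE X) (M : ℝ) (hM : 0 ≤ M)
    (h : ∀ x y, ‖foEval B x y‖ ≤ M * ‖x‖ * ‖y‖) : ‖B‖ ≤ M :=
  ContinuousLinearMap.opNorm_le_bound₂ (show X →L[ℝ] X →L[ℝ] ℝ from B) hM h

/-- The rank one form `(x, y) ↦ f x * f y`. -/
noncomputable def fo_sq (f : X →L[ℝ] ℝ) : FoE X :=
  (show X →L[ℝ] X →L[ℝ] ℝ from ContinuousLinearMap.smulRightL ℝ X (X →L[ℝ] ℝ) f f)

theorem fo_sq_apply (f : X →L[ℝ] ℝ) (x y : X) : foEval (fo_sq f) x y = f x * f y := by
  change (ContinuousLinearMap.smulRightL ℝ X (X →L[ℝ] ℝ) f f) x y = _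
  simp [ContinuousLinearMap.smulRightL_apply_apply]

theorem fo_sq_continuous : Continuous (fo_sq : (X →L[ℝ] ℝ) → FoE X) := by
  have : Continuous fun f : X →L[ℝ] ℝ =>
      (ContinuousLinearMap.smulRightL ℝ X (X →L[ℝ] ℝ) f f : X →L[ℝ] X →L[ℝ] ℝ) := by
    fun_prop
  exact this

/-- Evaluation as a continuous functional. -/
noncomputable def fo_ev (x y : X) : FoE X →L[ℝ] ℝ :=
  LinearMap.mkContinuous
    { toFun := fun B => foEval B x y
      map_add' := fun B C => foEval_add B C x y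
      map_smul' := fun c B => foEval_smul c B x y } (‖x‖ * ‖y‖) (by
        intro B
        refine (foEval_le B x y).trans (le_of_eq ?_)
        ring)

theorem fo_ev_apply (x y : X) (B : FoE X) : fo_ev x y B = foEval B x y := rfl

/-- The action of one operator on forms. -/
noncomputable def fo_actL (S : X →L[ℝ] X) : FoE X →L[ℝ] FoE X :=
  LinearMap.mkContinuous
    { toFun := fun B => (show FoE X from (show X →L[ℝ] X →L[ℝ] ℝ from B).bilinearComp S S)
      map_add' := fun B C => fo_ext fun x y => rfl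
      map_smul' := fun c B => fo_ext fun x y => rfl } (‖S‖ * ‖S‖) (by
        intro B
        refine fo_norm_le _ _ (by positivity) ?_
        intro x y
        change ‖foEval B (S x) (S y)‖ ≤ _
        refine (foEval_le B _ _).trans ?_
        calc ‖B‖ * ‖S x‖ * ‖S y‖ ≤ ‖B‖ * (‖S‖ * ‖x‖) * (‖S‖ * ‖y‖) := by
              gcongr
              · exact S.le_opNorm x
              · exact S.le_opNorm y
          _ = ‖S‖ * ‖S‖ * ‖B‖ * ‖x‖ * ‖y‖ := by ring)

theorem fo_actL_apply (S : X →L[ℝ] X) (B : FoE X) (x y : X) :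
    foEval (fo_actL S B) x y = foEval B (S x) (S y) := rfl

theorem fo_actL_norm (S : X →L[ℝ] X) : ‖fo_actL S‖ ≤ ‖S‖ * ‖S‖ :=
  LinearMap.mkContinuous_norm_le _ (by positivity) _

/-- The action of a group of operators on bilinear forms. -/
noncomputable def fo_act (A : G →* (X →L[ℝ] X)) : G →* (FoE X →L[ℝ] FoE X) where
  toFun h := fo_actL (A h⁻¹)
  map_one' := by
    refine ContinuousLinearMap.ext fun B => fo_ext fun x y => ?_
    rw [fo_actL_apply]
    simp
  map_mul' g h := by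
    refine ContinuousLinearMap.ext fun B => fo_ext fun x y => ?_
    rw [fo_actL_apply]
    change _ = foEval B (A h⁻¹ (A g⁻¹ x)) (A h⁻¹ (A g⁻¹ y))
    have h1 : ∀ x, A (g * h)⁻¹ x = A h⁻¹ (A g⁻¹ x) := by
      intro x
      rw [mul_inv_rev, map_mul]
      rfl
    rw [h1, h1]

theorem fo_act_apply (A : G →* (X →L[ℝ] X)) (h : G) (B : FoE X) (x y : X) :
    foEval (fo_act A h B) x y = foEval B (A h⁻¹ x) (A h⁻¹ y) := rfl

theorem fo_act_sq (A : G →* (X →L[ℝ] X)) (φ : X →L[ℝ] ℝ)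
    (h g : G) : fo_act A h (fo_sq (φ.comp (A g))) = fo_sq (φ.comp (A (g * h⁻¹))) := by
  refine fo_ext fun x y => ?_
  rw [fo_act_apply, fo_sq_apply, fo_sq_apply, map_mul]
  rfl

theorem fo_inv_apply (A : G →* (X →L[ℝ] X)) (g : G) (x : X) : A g (A g⁻¹ x) = x := by
  have : (A g * A g⁻¹) x = x := by rw [← map_mul]; simp
  exact this

theorem fo_inv_apply' (A : G →* (X →L[ℝ] X)) (g : G) (x : X) : A g⁻¹ (A g x) = x := by
  have : (A g⁻¹ * A g) x = x := by rw [← map_mul]; simp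
  exact this

theorem fo_tb (A : G →* (X →L[ℝ] X)) (φ : X →L[ℝ] ℝ)
    (hTB : TotallyBounded (Set.range fun g => φ.comp (A g))) :
    TotallyBounded (Set.range fun g => fo_sq (φ.comp (A g))) := by
  have h1 : IsCompact (closure (Set.range fun g => φ.comp (A g))) :=
    hTB.closure.isCompact_of_isClosed isClosed_closure
  refine (h1.image fo_sq_continuous).totallyBounded.subset ?_
  rintro _ ⟨g, rfl⟩
  exact ⟨_, subset_closure ⟨g, rfl⟩, rfl⟩

/-- A finite net of the orbit, given by finitely many group elements. -/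
theorem fo_net (A : G →* (X →L[ℝ] X)) (φ : X →L[ℝ] ℝ)
    (hTB : TotallyBounded (Set.range fun g => φ.comp (A g))) (δ : ℝ) (hδ : 0 < δ) :
    ∃ t : Finset G, ∀ g, ∃ d ∈ t, ‖φ.comp (A g) - φ.comp (A d)‖ < δ := by
  classical
  obtain ⟨t, hts, htf, htc⟩ := Metric.finite_approx_of_totallyBounded hTB δ hδ
  choose! c hc using fun (f : X →L[ℝ] ℝ) (hf : f ∈ t) => hts hf
  refine ⟨htf.toFinset.image c, fun g => ?_⟩
  have hg := htc ⟨g, rfl⟩
  rw [Set.mem_iUnion₂] at hg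
  obtain ⟨f, hf, hgf⟩ := hg
  refine ⟨c f, Finset.mem_image_of_mem c (by simpa using hf), ?_⟩
  have h1 : φ.comp (A (c f)) = f := hc f hf
  rw [h1, ← dist_eq_norm]
  exact hgf

theorem fo_nonzero (A : G →* (X →L[ℝ] X)) (K : ℝ) (hA : ∀ g, ‖A g‖ ≤ K) (φ : X →L[ℝ] ℝ)
    (hφ : φ ≠ 0) (hTB : TotallyBounded (Set.range fun g => φ.comp (A g)))
    (B : FoE X) (hB : ∀ (F : FoE X →L[ℝ] ℝ) (m : ℝ),
      (∀ g, m ≤ F (fo_sq (φ.comp (A g)))) → m ≤ F B) : ∃ x, foEval B x x ≠ 0 := by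
  obtain ⟨x₁, hx₁⟩ : ∃ x, φ x ≠ 0 := by
    by_contra hcon
    push Not at hcon
    exact hφ (by ext x; simpa using hcon x)
  set x₀ : X := (φ x₁)⁻¹ • x₁ with hx₀
  have hφ0 : φ x₀ = 1 := by simp [hx₀, hx₁]
  have hK : 0 ≤ K := (norm_nonneg _).trans (hA 1)
  set δ : ℝ := 1 / (2 * (K * ‖x₀‖ + 1)) with hδ
  have hδ0 : 0 < δ := by positivity
  obtain ⟨t, ht⟩ := fo_net A φ hTB δ hδ0
  have hx : ∀ d, ‖A d⁻¹ x₀‖ ≤ K * ‖x₀‖ := fun d => (A d⁻¹).le_of_opNorm_le (hA _) x₀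
  have key : 1 / 4 ≤ (∑ d ∈ t, fo_ev (A d⁻¹ x₀) (A d⁻¹ x₀)) B := by
    refine hB _ _ fun g => ?_
    rw [_root_.sum_apply]
    obtain ⟨d, hd, hdg⟩ := ht g
    have hterm : 1 / 4 ≤ fo_ev (A d⁻¹ x₀) (A d⁻¹ x₀) (fo_sq (φ.comp (A g))) := by
      rw [fo_ev_apply, fo_sq_apply]
      have h1 : φ.comp (A d) (A d⁻¹ x₀) = 1 := by
        change φ (A d (A d⁻¹ x₀)) = 1
        rw [fo_inv_apply, hφ0]
      have h2 : ‖(φ.comp (A g) - φ.comp (A d)) (A d⁻¹ x₀)‖ ≤ 1 / 2 := by
        refine (ContinuousLinearMap.le_opNorm _ _).trans ?_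
        calc ‖φ.comp (A g) - φ.comp (A d)‖ * ‖A d⁻¹ x₀‖ ≤ δ * (K * ‖x₀‖) := by
              gcongr
              exact hx d
          _ ≤ δ * (K * ‖x₀‖ + 1) := by gcongr; linarith
          _ = 1 / 2 := by rw [hδ]; field_simp
      rw [_root_.sub_apply, h1, Real.norm_eq_abs, abs_le] at h2
      have h3 : 1 / 2 ≤ φ.comp (A g) (A d⁻¹ x₀) := by linarith [h2.1]
      nlinarith
    refine hterm.trans (Finset.single_le_sum
      (f := fun d => fo_ev (A d⁻¹ x₀) (A d⁻¹ x₀) (fo_sq (φ.comp (A g)))) ?_ hd)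
    intro i _
    simp only [fo_ev_apply, fo_sq_apply]
    exact mul_self_nonneg _
  by_contra hcon
  push Not at hcon
  rw [_root_.sum_apply] at key
  simp only [fo_ev_apply, hcon, Finset.sum_const_zero] at key
  norm_num at key

theorem fo_finite (A : G →* (X →L[ℝ] X)) (K : ℝ) (hA : ∀ g, ‖A g‖ ≤ K) (φ : X →L[ℝ] ℝ)
    (hTB : TotallyBounded (Set.range fun g => φ.comp (A g)))
    (B : FoE X) (hB : ∀ (F : FoE X →L[ℝ] ℝ) (m : ℝ),
      (∀ g, m ≤ F (fo_sq (φ.comp (A g)))) → m ≤ F B) (x : X) (ε : ℝ) (hε : 0 < ε) :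
    ∃ D : Set X, D.Finite ∧ ∀ g, ∃ d ∈ D, foEval B (A g x - d) (A g x - d) ≤ ε := by
  classical
  have hK : 0 ≤ K := (norm_nonneg _).trans (hA 1)
  have hle : ∀ (y : X) (m : ℝ), (∀ g, |φ (A g y)| ≤ m) → foEval B y y ≤ m * m := by
    intro y m hm
    have h1 := hB (-(fo_ev y y)) (-(m * m)) (by
      intro g
      rw [_root_.neg_apply, fo_ev_apply, fo_sq_apply]
      change -(m * m) ≤ -(φ (A g y) * φ (A g y))
      have h2 := abs_mul_abs_self (φ (A g y))
      have h3 := hm g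
      have h4 := abs_nonneg (φ (A g y))
      nlinarith)
    rw [_root_.neg_apply, fo_ev_apply] at h1
    linarith
  set η : ℝ := Real.sqrt ε with hη
  have hη0 : 0 < η := Real.sqrt_pos.2 hε
  set δ : ℝ := η / (2 * (2 * K * ‖x‖ + 1)) with hδ
  have hδ0 : 0 < δ := by positivity
  obtain ⟨t, ht⟩ := fo_net A φ hTB δ hδ0
  -- the finite dimensional picture
  set Φ : G → (t → ℝ) := fun g d => φ (A d.1 (A g x)) with hΦ
  have hbd : Bornology.IsBounded (Set.range Φ) := by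
    refine (Metric.isBounded_closedBall (x := (0 : t → ℝ)) (r := ‖φ‖ * (K * (K * ‖x‖)))).subset ?_
    rintro _ ⟨g, rfl⟩
    rw [mem_closedBall_zero_iff, pi_norm_le_iff_of_nonneg (by positivity)]
    intro d
    calc ‖φ (A d.1 (A g x))‖ ≤ ‖φ‖ * ‖A d.1 (A g x)‖ := φ.le_opNorm _
      _ ≤ ‖φ‖ * (K * ‖A g x‖) := by gcongr; exact (A d.1).le_of_opNorm_le (hA _) _
      _ ≤ ‖φ‖ * (K * (K * ‖x‖)) := by gcongr; exact (A g).le_of_opNorm_le (hA _) _
  have htb : TotallyBounded (Set.range Φ) := hbd.isCompact_closure.totallyBounded.subset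
    subset_closure
  obtain ⟨s, hss, hsf, hsc⟩ := Metric.finite_approx_of_totallyBounded htb (η / 2) (by positivity)
  choose! c hc using fun (v : t → ℝ) (hv : v ∈ s) => hss hv
  refine ⟨(fun v => A (c v) x) '' s, hsf.image _, fun g => ?_⟩
  have hg := hsc ⟨g, rfl⟩
  rw [Set.mem_iUnion₂] at hg
  obtain ⟨v, hv, hgv⟩ := hg
  refine ⟨A (c v) x, ⟨v, hv, rfl⟩, ?_⟩
  have hcv : Φ (c v) = v := hc v hv
  have hdist : ∀ d : t, |φ (A d.1 (A g x)) - φ (A d.1 (A (c v) x))| ≤ η / 2 := by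
    intro d
    have h1 : dist (Φ g) (Φ (c v)) < η / 2 := by rw [hcv]; exact hgv
    have h2 := (dist_le_pi_dist (Φ g) (Φ (c v)) d).trans h1.le
    rw [Real.dist_eq] at h2
    exact h2
  have hnorm : ‖A g x - A (c v) x‖ ≤ 2 * K * ‖x‖ := by
    refine (norm_sub_le _ _).trans ?_
    have h1 := (A g).le_of_opNorm_le (hA _) x
    have h2 := (A (c v)).le_of_opNorm_le (hA _) x
    linarith
  have := hle (A g x - A (c v) x) η (by
    intro h
    obtain ⟨d, hd, hdh⟩ := ht h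
    have h1 : φ (A h (A g x - A (c v) x)) =
        (φ.comp (A h) - φ.comp (A d)) (A g x - A (c v) x) +
          (φ (A d (A g x)) - φ (A d (A (c v) x))) := by
      rw [_root_.sub_apply]
      simp only [ContinuousLinearMap.comp_apply, map_sub]
      ring
    rw [h1]
    refine (abs_add_le _ _).trans ?_
    have h2 := hdist ⟨d, hd⟩
    have h3 : |(φ.comp (A h) - φ.comp (A d)) (A g x - A (c v) x)| ≤ η / 2 := by
      rw [← Real.norm_eq_abs]
      refine (ContinuousLinearMap.le_opNorm _ _).trans ?_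
      calc ‖φ.comp (A h) - φ.comp (A d)‖ * ‖A g x - A (c v) x‖
          ≤ δ * (2 * K * ‖x‖) := by gcongr
        _ ≤ δ * (2 * K * ‖x‖ + 1) := by gcongr; linarith
        _ = η / 2 := by rw [hδ]; field_simp
    dsimp only at h2
    linarith)
  rw [hη, Real.mul_self_sqrt hε.le] at this
  exact this

end

/-! ### Module FORM: the averaged quadratic form -/

theorem exists_form {X : Type*} [NormedAddCommGroup X] [NormedSpace ℝ X] {G : Type*} [Group G]
    (A : G →* (X →L[ℝ] X)) (K : ℝ) (hA : ∀ g, ‖A g‖ ≤ K) (φ : X →L[ℝ] ℝ) (hφ : φ ≠ 0)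
    (hTB : TotallyBounded (Set.range fun g => φ.comp (A g))) :
    ∃ B : X →L[ℝ] X →L[ℝ] ℝ, (∀ x y, B x y = B y x) ∧ (∀ x, 0 ≤ B x x) ∧ (∃ x, B x x ≠ 0) ∧
      (∀ g x y, B (A g x) (A g y) = B x y) ∧
      ∀ (x : X) (ε : ℝ), 0 < ε → ∃ D : Set X, D.Finite ∧ ∀ g, ∃ d ∈ D,
        B (A g x - d) (A g x - d) ≤ ε := by
  have hK : 0 ≤ K := (norm_nonneg _).trans (hA 1)
  obtain ⟨B, hB, hF⟩ := fo_average (fo_act A) (K * K)
    (fun g => (fo_actL_norm _).trans (mul_le_mul (hA _) (hA _) (norm_nonneg _) hK))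
    (fun g => fo_sq (φ.comp (A g))) (fo_tb A φ hTB) (fun h g => ⟨g * h⁻¹, fo_act_sq A φ h g⟩)
  refine ⟨B, ?_, ?_, ?_, ?_, ?_⟩
  · intro x y
    have h1 : ∀ x y : X, foEval B x y ≤ foEval B y x := by
      intro x y
      have := hF (fo_ev y x - fo_ev x y) 0 (by
        intro g
        rw [_root_.sub_apply, fo_ev_apply, fo_ev_apply, fo_sq_apply, fo_sq_apply]
        linarith)
      rw [_root_.sub_apply, fo_ev_apply, fo_ev_apply] at this
      linarith
    exact le_antisymm (h1 x y) (h1 y x)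
  · intro x
    have := hF (fo_ev x x) 0 (by
      intro g
      rw [fo_ev_apply, fo_sq_apply]
      exact mul_self_nonneg _)
    exact this
  · exact fo_nonzero A K hA φ hφ hTB B hF
  · intro g x y
    have h1 := hB g⁻¹
    have h2 := fo_act_apply A g⁻¹ B x y
    rw [h1, inv_inv] at h2
    exact h2.symm
  · intro x ε hε
    exact fo_finite A K hA φ hTB B hF x ε hε

end Pool.Agent.Comb7f333f.DPart
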