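import Mathlib

set_option autoImplicit false

/-!
Minimal weak* compact invariant sets of sequences of functionals: a bounded group of operators on a
normed space with separable dual either has a nonzero functional with a totally bounded orbit or
contains a sequence which tends weakly to zero.
-/

namespace Pool.Agent.Comb7f333f.DPart

open Filter Topology

/-- A minimal nonempty closed invariant subset of a compact invariant set. -/
theorem mi_exists_minimal {Y : Type*} [TopologicalSpace Y] {G : Type*} (R : G → Y → Y)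
    (Z : Set Y) (hZ : IsCompact Z) (hZc : IsClosed Z) (hne : Z.Nonempty)
    (hinv : ∀ g, ∀ y ∈ Z, R g y ∈ Z) :
    ∃ M : Set Y, IsClosed M ∧ M.Nonempty ∧ M ⊆ Z ∧ (∀ g, ∀ y ∈ M, R g y ∈ M) ∧
      ∀ M' : Set Y, IsClosed M' → M'.Nonempty → M' ⊆ M → (∀ g, ∀ y ∈ M', R g y ∈ M') →
        M ⊆ M' := by
  set 𝒮 : Set (Set Y) := {S | IsClosed S ∧ S.Nonempty ∧ S ⊆ Z ∧ ∀ g, ∀ y ∈ S, R g y ∈ S} with h𝒮
  have hZ𝒮 : Z ∈ 𝒮 := ⟨hZc, hne, subset_rfl, hinv⟩
  obtain ⟨S, hS⟩ : ∃ S, Minimal (· ∈ 𝒮) S := by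
    refine zorn_superset _ fun ch hch hchain => ?_
    rcases ch.eq_empty_or_nonempty with rfl | hne
    · exact ⟨Z, hZ𝒮, fun s hs => absurd hs (Set.notMem_empty s)⟩
    · refine ⟨⋂₀ ch, ⟨isClosed_sInter fun t ht => (hch ht).1, ?_, ?_, ?_⟩, fun s hs =>
        Set.sInter_subset_of_mem hs⟩
      · rw [Set.sInter_eq_iInter]
        have : Nonempty ch := hne.coe_sort
        refine IsCompact.nonempty_iInter_of_directed_nonempty_isCompact_isClosed _
          (DirectedOn.directed_val (IsChain.directedOn hchain.symm)) (fun i => (hch i.2).2.1)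
          (fun i => hZ.of_isClosed_subset (hch i.2).1 (hch i.2).2.2.1) fun i => (hch i.2).1
      · obtain ⟨t, ht⟩ := hne
        exact (Set.sInter_subset_of_mem ht).trans (hch ht).2.2.1
      · intro g y hy t ht
        exact (hch ht).2.2.2 g y (hy t ht)
  obtain ⟨hS1, hS2, hS3, hS4⟩ := hS.prop
  exact ⟨S, hS1, hS2, hS3, hS4, fun M' h1 h2 h3 h4 =>
    hS.le_of_le ⟨h1, h2, h3.trans hS3, h4⟩ h3⟩

/-- Finitely many translates of an open set cover a minimal set. -/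
theorem mi_cover {Y : Type*} [TopologicalSpace Y] {G : Type*} [Group G] (R : G → Y → Y)
    (hR : ∀ g, Continuous (R g)) (hRm : ∀ g g' y, R g (R g' y) = R (g' * g) y)
    (hR1 : ∀ y, R 1 y = y)
    (M : Set Y) (hM : IsCompact M) (hMc : IsClosed M)
    (hmin : ∀ M' : Set Y, IsClosed M' → M'.Nonempty → M' ⊆ M → (∀ g, ∀ y ∈ M', R g y ∈ M') →
        M ⊆ M') (hinv : ∀ g, ∀ y ∈ M, R g y ∈ M) (O : Set Y) (hO : IsOpen O)
    (hne : (M ∩ O).Nonempty) : ∃ t : Finset G, ∀ y ∈ M, ∃ g ∈ t, R g y ∈ O := by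
  have hcl : ∀ g, IsClosed (R g ⁻¹' Oᶜ) := fun g => hO.isClosed_compl.preimage (hR g)
  have hempty : (M ∩ ⋂ g : G, R g ⁻¹' Oᶜ) = ∅ := by
    by_contra hcon
    rw [← Ne, ← Set.nonempty_iff_ne_empty] at hcon
    have h1 : M ⊆ (M ∩ ⋂ g : G, R g ⁻¹' Oᶜ) := by
      refine hmin _ (hMc.inter (isClosed_iInter hcl)) hcon Set.inter_subset_left fun g y hy => ?_
      refine ⟨hinv g y hy.1, Set.mem_iInter.mpr fun g' => ?_⟩
      have h2 := Set.mem_iInter.mp hy.2 (g * g')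
      rw [Set.mem_preimage] at h2 ⊢
      rwa [hRm]
    obtain ⟨y, hy, hyO⟩ := hne
    have h2 := Set.mem_iInter.mp (h1 hy).2 1
    rw [Set.mem_preimage, hR1] at h2
    exact h2 hyO
  obtain ⟨t, ht⟩ := hM.elim_finite_subfamily_closed _ hcl hempty
  refine ⟨t, fun y hy => ?_⟩
  by_contra hcon
  push Not at hcon
  have h2 : y ∈ (M ∩ ⋂ g ∈ t, R g ⁻¹' Oᶜ) := ⟨hy, by
    rw [Set.mem_iInter₂]
    exact fun g hg => hcon g hg⟩
  rw [ht] at h2
  exact h2

/-- Baire category in a compact subset of a Hausdorff space. -/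
theorem mi_baire {Y : Type*} [TopologicalSpace Y] [T2Space Y] (M : Set Y) (hM : IsCompact M)
    (hne : M.Nonempty) (f : ℕ → Set Y) (hf : ∀ n, IsClosed (f n)) (hcov : M ⊆ ⋃ n, f n) :
    ∃ n, ∃ O : Set Y, IsOpen O ∧ (M ∩ O).Nonempty ∧ M ∩ O ⊆ f n := by
  have : CompactSpace M := isCompact_iff_compactSpace.mp hM
  have : Nonempty M := hne.to_subtype
  obtain ⟨n, hn⟩ := nonempty_interior_of_iUnion_of_closed (X := M)
    (f := fun n : ℕ => Subtype.val ⁻¹' f n)
    (fun n => (hf n).preimage continuous_subtype_val) (by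
      rw [Set.eq_univ_iff_forall]
      rintro ⟨ξ, hξ⟩
      obtain ⟨n, hn⟩ := Set.mem_iUnion.mp (hcov hξ)
      exact Set.mem_iUnion.mpr ⟨n, hn⟩)
  obtain ⟨⟨ξ0, hξ0⟩, hn⟩ := hn
  obtain ⟨U, hU1, hU2, hU3⟩ := mem_interior.mp hn
  obtain ⟨O, hO1, hO2⟩ := isOpen_induced_iff.mp hU2
  refine ⟨n, O, hO1, ⟨ξ0, hξ0, ?_⟩, ?_⟩
  · have h1 : (⟨ξ0, hξ0⟩ : M) ∈ Subtype.val ⁻¹' O := by rw [hO2]; exact hU3
    exact h1
  · rintro ξ ⟨hξ, hξO⟩
    have h1 : (⟨ξ, hξ⟩ : M) ∈ U := by rw [← hO2]; exact hξO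
    exact hU1 h1

/-- The right action of an operator on the weak dual. -/
noncomputable def mi_pull {X : Type*} [NormedAddCommGroup X] [NormedSpace ℝ X] (T : X →L[ℝ] X)
    (ψ : WeakDual ℝ X) : WeakDual ℝ X :=
  StrongDual.toWeakDual ((WeakDual.toStrongDual ψ).comp T)

theorem mi_pull_apply {X : Type*} [NormedAddCommGroup X] [NormedSpace ℝ X] (T : X →L[ℝ] X)
    (ψ : WeakDual ℝ X) (x : X) : mi_pull T ψ x = ψ (T x) := rfl

theorem mi_pull_continuous {X : Type*} [NormedAddCommGroup X] [NormedSpace ℝ X] (T : X →L[ℝ] X) :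
    Continuous (mi_pull T) :=
  WeakDual.continuous_of_continuous_eval fun x => WeakDual.eval_continuous (T x)

theorem exists_tb_or_null {X : Type*} [NormedAddCommGroup X] [NormedSpace ℝ X] {G : Type*}
    [Group G] (A : G →* (X →L[ℝ] X)) (K : ℝ) (hA : ∀ g, ‖A g‖ ≤ K)
    (hsep : ∃ s : ℕ → X, DenseRange s) (hsep' : ∃ s : ℕ → (X →L[ℝ] ℝ), DenseRange s) :
    (∃ φ : X →L[ℝ] ℝ, φ ≠ 0 ∧ TotallyBounded (Set.range fun g => φ.comp (A g))) ∨
      ∃ γ : ℕ → G, ∀ (x : X) (φ : X →L[ℝ] ℝ), Tendsto (fun j => φ (A (γ j) x)) atTop (𝓝 0) := by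
  classical
  by_cases hTB : ∃ φ : X →L[ℝ] ℝ, φ ≠ 0 ∧ TotallyBounded (Set.range fun g => φ.comp (A g))
  · exact Or.inl hTB
  right
  push Not at hTB
  obtain ⟨s, hs⟩ := hsep
  obtain ⟨s', hs'⟩ := hsep'
  have hK0 : 0 ≤ K := (norm_nonneg _).trans (hA 1)
  have hAx : ∀ g x, ‖A g x‖ ≤ K * ‖x‖ := fun g x =>
    ((A g).le_opNorm x).trans (mul_le_mul_of_nonneg_right (hA g) (norm_nonneg _))
  have hAφ : ∀ g (φ : X →L[ℝ] ℝ), ‖φ.comp (A g)‖ ≤ ‖φ‖ * K := fun g φ =>
    (φ.opNorm_comp_le (A g)).trans (mul_le_mul_of_nonneg_left (hA g) (norm_nonneg _))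
  -- the action on sequences of functionals
  set R : G → (ℕ → WeakDual ℝ X) → (ℕ → WeakDual ℝ X) := fun g ψ i => mi_pull (A g) (ψ i) with hR
  have hRc : ∀ g, Continuous (R g) := fun g => continuous_pi fun i =>
    (mi_pull_continuous (A g)).comp (continuous_apply i)
  have hRm : ∀ g g' ψ, R g (R g' ψ) = R (g' * g) ψ := by
    intro g g' ψ
    funext i
    refine DFunLike.ext _ _ fun x => ?_
    simp only [hR, mi_pull_apply, map_mul, ContinuousLinearMap.mul_apply]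
  have hR1 : ∀ ψ, R 1 ψ = ψ := by
    intro ψ
    funext i
    refine DFunLike.ext _ _ fun x => ?_
    simp only [hR, mi_pull_apply, map_one, ContinuousLinearMap.one_apply]
  set σ : ℕ → WeakDual ℝ X := fun i => StrongDual.toWeakDual (s' i) with hσ
  set Z : Set (ℕ → WeakDual ℝ X) := closure (Set.range fun g : G => R g σ) with hZ
  have hbox : IsCompact (Set.pi Set.univ fun i : ℕ =>
      (WeakDual.toStrongDual ⁻¹' Metric.closedBall (0 : StrongDual ℝ X) (‖s' i‖ * K) :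
        Set (WeakDual ℝ X))) :=
    isCompact_univ_pi fun i => WeakDual.isCompact_closedBall 0 _
  have hZcomp : IsCompact Z := by
    refine hbox.closure_of_subset ?_
    rintro _ ⟨g, rfl⟩ i -
    rw [Set.mem_preimage, mem_closedBall_zero_iff]
    exact hAφ g (s' i)
  have hZinv : ∀ g, ∀ ψ ∈ Z, R g ψ ∈ Z := by
    intro g ψ hψ
    refine map_mem_closure (hRc g) hψ ?_
    rintro _ ⟨g', rfl⟩
    exact ⟨g' * g, (hRm g g' σ).symm⟩
  obtain ⟨M, hMc, hMne, hMZ, hMinv, hMmin⟩ := mi_exists_minimal R Z hZcomp isClosed_closure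
    ⟨_, subset_closure ⟨1, rfl⟩⟩ hZinv
  have hMcomp : IsCompact M := hZcomp.of_isClosed_subset hMc hMZ
  -- the key
  have hkey : ∀ (i : ℕ) (ε : ℝ), 0 < ε → ∃ D : Set (X →L[ℝ] ℝ), D.Finite ∧ ∀ ψ ∈ M,
      ∃ d ∈ D, ‖WeakDual.toStrongDual (ψ i) - d‖ ≤ ε * K := by
    intro i ε hε
    obtain ⟨n, O, hO, hOne, hOn⟩ := mi_baire M hMcomp hMne
      (fun n : ℕ => {ψ : ℕ → WeakDual ℝ X | ψ i ∈
        (WeakDual.toStrongDual ⁻¹' Metric.closedBall (s' n : StrongDual ℝ X) ε :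
          Set (WeakDual ℝ X))})
      (fun n => (WeakDual.isClosed_closedBall (s' n) ε).preimage (continuous_apply i)) (by
        intro ψ _
        obtain ⟨n, hn⟩ := hs'.exists_dist_lt (WeakDual.toStrongDual (ψ i)) hε
        refine Set.mem_iUnion.mpr ⟨n, ?_⟩
        exact Metric.mem_closedBall.mpr hn.le)
    obtain ⟨t, ht⟩ := mi_cover R hRc hRm hR1 M hMcomp hMc hMmin hMinv O hO hOne
    refine ⟨(fun g : G => (s' n).comp (A g⁻¹)) '' (t : Set G), t.finite_toSet.image _,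
      fun ψ hψ => ?_⟩
    obtain ⟨g, hg, hgO⟩ := ht ψ hψ
    have h1 := hOn ⟨hMinv g ψ hψ, hgO⟩
    have h2 : ‖WeakDual.toStrongDual (R g ψ i) - s' n‖ ≤ ε := by
      have h3 : dist (WeakDual.toStrongDual (R g ψ i)) (s' n) ≤ ε := h1
      rwa [dist_eq_norm] at h3
    refine ⟨_, ⟨g, hg, rfl⟩, ?_⟩
    have h3 : WeakDual.toStrongDual (ψ i) - (s' n).comp (A g⁻¹) =
        (WeakDual.toStrongDual (R g ψ i) - s' n).comp (A g⁻¹) := by
      refine ContinuousLinearMap.ext fun x => ?_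
      have h4 : A g (A g⁻¹ x) = x := by
        rw [← ContinuousLinearMap.mul_apply, ← map_mul, mul_inv_cancel, map_one,
          ContinuousLinearMap.one_apply]
      show ψ i x - s' n (A g⁻¹ x) = ψ i (A g (A g⁻¹ x)) - s' n (A g⁻¹ x)
      rw [h4]
    beta_reduce
    rw [h3]
    exact (hAφ _ _).trans (mul_le_mul_of_nonneg_right h2 hK0)
  obtain ⟨ψ, hψ⟩ := hMne
  have hψ0 : ∀ i, ψ i = 0 := by
    intro i
    by_contra hne
    have hne' : WeakDual.toStrongDual (ψ i) ≠ 0 := fun h => hne (by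
      have h5 := congrArg StrongDual.toWeakDual h
      simpa using h5)
    refine hTB _ hne' ?_
    rw [Metric.totallyBounded_iff]
    intro ε hε
    obtain ⟨D, hD, hD2⟩ := hkey i (ε / (2 * (K + 1))) (by positivity)
    refine ⟨D, hD, ?_⟩
    rintro _ ⟨g, rfl⟩
    obtain ⟨d, hd, hd2⟩ := hD2 _ (hMinv g ψ hψ)
    refine Set.mem_iUnion₂.mpr ⟨d, hd, ?_⟩
    rw [Metric.mem_ball, dist_eq_norm]
    have h5 : ε / (2 * (K + 1)) * K < ε := by
      rw [div_mul_eq_mul_div, div_lt_iff₀ (by positivity)]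
      nlinarith
    exact lt_of_le_of_lt hd2 h5
  have h0Z : (0 : ℕ → WeakDual ℝ X) ∈ Z := by
    have h1 : ψ = 0 := funext hψ0
    rw [← h1]
    exact hMZ hψ
  -- a sequence of elements of the group
  have hstep : ∀ n : ℕ, ∃ g : G, ∀ i ∈ Finset.range n, ∀ j ∈ Finset.range n,
      |s' i (A g (s j))| < 1 / ((n : ℝ) + 1) := by
    intro n
    have hn : (0 : ℝ) < 1 / ((n : ℝ) + 1) := by positivity
    set U : Set (ℕ → WeakDual ℝ X) := ⋂ i ∈ Finset.range n, ⋂ j ∈ Finset.range n,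
      {ξ | |ξ i (s j)| < 1 / ((n : ℝ) + 1)} with hU
    have hUo : IsOpen U := by
      refine isOpen_biInter_finset fun i _ => isOpen_biInter_finset fun j _ => ?_
      exact isOpen_lt (((WeakDual.eval_continuous (s j)).comp (continuous_apply i)).abs)
        continuous_const
    have h0U : (0 : ℕ → WeakDual ℝ X) ∈ U := by
      simp only [hU, Set.mem_iInter, Set.mem_setOf_eq]
      intro i _ j _
      have : ((0 : ℕ → WeakDual ℝ X) i) (s j) = 0 := rfl
      rw [this, abs_zero]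
      exact hn
    obtain ⟨ξ, hξU, g, hg⟩ := mem_closure_iff.mp h0Z U hUo h0U
    refine ⟨g, fun i hi j hj => ?_⟩
    simp only [hU, Set.mem_iInter, Set.mem_setOf_eq] at hξU
    have h2 := hξU i hi j hj
    rw [← hg] at h2
    exact h2
  choose γ hγ using hstep
  refine ⟨γ, fun x φ => ?_⟩
  rw [Metric.tendsto_atTop]
  intro δ hδ
  obtain ⟨i, hi⟩ := hs'.exists_dist_lt φ (show 0 < δ / (4 * (K + 1) * (‖x‖ + 1)) by positivity)
  obtain ⟨j, hj⟩ := hs.exists_dist_lt x (show 0 < δ / (4 * (K + 1) * (‖s' i‖ + 1)) by positivity)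
  rw [dist_eq_norm] at hi hj
  obtain ⟨n1, hn1⟩ := exists_nat_gt (4 / δ)
  refine ⟨max n1 (max (i + 1) (j + 1)), fun n hn => ?_⟩
  have hni : i < n := by
    have := le_max_right n1 (max (i + 1) (j + 1))
    have := le_max_left (i + 1) (j + 1)
    omega
  have hnj : j < n := by
    have := le_max_right n1 (max (i + 1) (j + 1))
    have := le_max_right (i + 1) (j + 1)
    omega
  have hn1n : n1 ≤ n := (le_max_left _ _).trans hn
  rw [dist_zero_right, Real.norm_eq_abs]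
  have h1 := hγ n i (Finset.mem_range.mpr hni) j (Finset.mem_range.mpr hnj)
  have h2 : 1 / ((n : ℝ) + 1) < δ / 4 := by
    rw [div_lt_div_iff₀ (by positivity) (by norm_num)]
    have h3 : (n1 : ℝ) ≤ n := by exact_mod_cast hn1n
    have h4 : 4 < δ * n1 := by
      rw [div_lt_iff₀ hδ] at hn1
      linarith
    nlinarith
  have h3 : |φ (A (γ n) x) - s' i (A (γ n) x)| ≤ δ / 4 := by
    have h5 : φ (A (γ n) x) - s' i (A (γ n) x) = (φ - s' i) (A (γ n) x) := rfl
    rw [h5, ← Real.norm_eq_abs]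
    refine ((φ - s' i).le_opNorm _).trans ?_
    refine (mul_le_mul hi.le (hAx _ _) (norm_nonneg _) (by positivity)).trans ?_
    rw [div_mul_eq_mul_div, div_le_iff₀ (by positivity)]
    have h6 : K * ‖x‖ ≤ (K + 1) * (‖x‖ + 1) := by nlinarith [norm_nonneg x]
    nlinarith
  have h4 : |s' i (A (γ n) x) - s' i (A (γ n) (s j))| ≤ δ / 4 := by
    have h5 : s' i (A (γ n) x) - s' i (A (γ n) (s j)) = s' i (A (γ n) (x - s j)) := by
      rw [map_sub, map_sub]
    rw [h5, ← Real.norm_eq_abs]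
    refine ((s' i).le_opNorm _).trans ?_
    refine (mul_le_mul_of_nonneg_left (hAx _ _) (norm_nonneg _)).trans ?_
    refine (mul_le_mul_of_nonneg_left (mul_le_mul_of_nonneg_left hj.le hK0)
      (norm_nonneg _)).trans ?_
    rw [← mul_assoc, mul_div_assoc', div_le_iff₀ (by positivity)]
    have h6 : ‖s' i‖ * K ≤ (K + 1) * (‖s' i‖ + 1) := by nlinarith [norm_nonneg (s' i)]
    nlinarith
  rw [abs_le] at h3 h4
  rw [abs_lt] at h1 ⊢
  constructor <;> linarith [h3.1, h3.2, h4.1, h4.2, h1.1, h1.2]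

end Pool.Agent.Comb7f333f.DPart
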