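import Mathlib
import Pool.Agent.Lib.MP_7f333f_an.D.Fp

set_option autoImplicit false

/-!
A compact symmetric operator commuting with an orthogonal group which has a nonzero vector with
totally bounded orbit (module OP of part D).
-/

namespace Pool.Agent.Comb7f333f.DPart

open Filter Topology
open scoped InnerProductSpace

section

variable {H : Type*} [NormedAddCommGroup H] [InnerProductSpace ℝ H]

/-- The rank one operator `x ↦ ⟪w, x⟫ w`. -/
noncomputable def opRk (w : H) : H →L[ℝ] H := (innerSL ℝ w).smulRight w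

theorem op_rk_apply (w x : H) : opRk w x = ⟪w, x⟫_ℝ • w := by
  simp [opRk]

theorem op_rk_continuous : Continuous (opRk : H → H →L[ℝ] H) := by
  have h : (opRk : H → H →L[ℝ] H)
      = fun w : H => ContinuousLinearMap.smulRightL ℝ H H (innerSL ℝ w) w := rfl
  rw [h]
  fun_prop

/-- Conjugation by a group of operators. -/
noncomputable def opConj {G : Type*} [Group G] (U : G →* (H →L[ℝ] H)) :
    G →* ((H →L[ℝ] H) →L[ℝ] (H →L[ℝ] H)) where
  toFun g := (ContinuousLinearMap.compL ℝ H H H (U g)).comp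
    ((ContinuousLinearMap.compL ℝ H H H).flip (U g⁻¹))
  map_one' := by
    ext S x
    simp
  map_mul' g h := by
    ext S x
    simp

theorem op_conj_apply {G : Type*} [Group G] (U : G →* (H →L[ℝ] H)) (g : G) (S : H →L[ℝ] H)
    (x : H) : opConj U g S x = U g (S (U g⁻¹ x)) := rfl

theorem op_inner {G : Type*} [Group G] (U : G →* (H →L[ℝ] H)) (hU : ∀ g v, ‖U g v‖ = ‖v‖)
    (g : G) (x y : H) : ⟪U g x, U g y⟫_ℝ = ⟪x, y⟫_ℝ :=
  (⟨(U g : H →ₗ[ℝ] H), hU g⟩ : H →ₗᵢ[ℝ] H).inner_map_map x y

theorem op_apply_inv {G : Type*} [Group G] (U : G →* (H →L[ℝ] H)) (g : G) (x : H) :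
    U g (U g⁻¹ x) = x := by
  rw [← mul_apply_eq_comp, ← map_mul, mul_inv_cancel, map_one]
  rfl

theorem op_inv_apply {G : Type*} [Group G] (U : G →* (H →L[ℝ] H)) (g : G) (x : H) :
    U g⁻¹ (U g x) = x := by
  rw [← mul_apply_eq_comp, ← map_mul, inv_mul_cancel, map_one]
  rfl

end

theorem exists_compact_op {H : Type*} [NormedAddCommGroup H] [InnerProductSpace ℝ H]
    [CompleteSpace H] {G : Type*} [Group G] (U : G →* (H →L[ℝ] H)) (hU : ∀ g v, ‖U g v‖ = ‖v‖)
    (v : H) (hv : v ≠ 0) (hTB : TotallyBounded (Set.range fun g => U g v)) :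
    ∃ T : H →L[ℝ] H, T ≠ 0 ∧ IsCompactOperator T ∧ (T : H →ₗ[ℝ] H).IsSymmetric ∧
      ∀ g x, U g (T x) = T (U g x) := by
  classical
  have hQc : IsCompact (closedConvexHull ℝ (Set.range fun g => opRk (U g v))) := by
    rw [closedConvexHull_eq_closure_convexHull]
    have h0 : TotallyBounded (Set.range fun g => opRk (U g v)) := by
      have h1 : IsCompact (closure (Set.range fun g => U g v)) :=
        isCompact_iff_totallyBounded_isComplete.2 ⟨hTB.closure, isClosed_closure.isComplete⟩
      refine (h1.image op_rk_continuous).totallyBounded.subset ?_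
      rintro _ ⟨g, rfl⟩
      exact ⟨U g v, subset_closure ⟨g, rfl⟩, rfl⟩
    exact isCompact_iff_totallyBounded_isComplete.2
      ⟨h0.convexHull.closure, isClosed_closure.isComplete⟩
  have hnorm : ∀ g, ‖U g‖ ≤ 1 := fun g =>
    (U g).opNorm_le_bound zero_le_one fun x => by rw [hU, one_mul]
  have hconjnorm : ∀ g, ‖opConj U g‖ ≤ 1 := by
    intro g
    refine (opConj U g).opNorm_le_bound zero_le_one fun S => ?_
    refine (opConj U g S).opNorm_le_bound (by positivity) fun x => ?_
    rw [op_conj_apply, hU, one_mul]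
    refine (S.le_opNorm _).trans ?_
    rw [hU]
  -- the images of the rank one operators
  have hconj : ∀ h g, opConj U h (opRk (U g v)) = opRk (U (h * g) v) := by
    intro h g
    ext x
    rw [op_conj_apply, op_rk_apply, op_rk_apply, map_smul, map_mul, mul_apply_eq_comp]
    congr 1
    rw [← op_inner U hU h (U g v) (U h⁻¹ x), op_apply_inv]
  have hinv : ∀ h, ∀ S ∈ closedConvexHull ℝ (Set.range fun g => opRk (U g v)),
      opConj U h S ∈ closedConvexHull ℝ (Set.range fun g => opRk (U g v)) := by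
    intro h
    have hsub : closedConvexHull ℝ (Set.range fun g => opRk (U g v)) ⊆
        (opConj U h) ⁻¹' (closedConvexHull ℝ (Set.range fun g => opRk (U g v))) := by
      refine closedConvexHull_min ?_ ?_ ?_
      · rintro _ ⟨g, rfl⟩
        refine subset_closedConvexHull ⟨h * g, ?_⟩
        exact (hconj h g).symm
      · exact convex_closedConvexHull.linear_preimage (opConj U h : (H →L[ℝ] H) →ₗ[ℝ] (H →L[ℝ] H))
      · exact isClosed_closedConvexHull.preimage (opConj U h).continuous
    exact fun S hS => hsub hS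
  obtain ⟨S, hSQ, hSfix⟩ := exists_fixed (opConj U) 1 hconjnorm _ hQc convex_closedConvexHull
    ⟨_, subset_closedConvexHull ⟨1, rfl⟩⟩ hinv
  refine ⟨S, ?_, ?_, ?_, ?_⟩
  · -- nonzero
    have hvpos : 0 < ‖v‖ := norm_pos_iff.2 hv
    obtain ⟨D, hDfin, hDcov⟩ := Metric.totallyBounded_iff.1 hTB (‖v‖ / 2) (by positivity)
    have hFcont : Continuous fun S' : H →L[ℝ] H => ∑ d ∈ hDfin.toFinset, ⟪S' d, d⟫_ℝ := by
      fun_prop
    have hsub : closedConvexHull ℝ (Set.range fun g => opRk (U g v)) ⊆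
        {S' : H →L[ℝ] H | ‖v‖ ^ 4 / 4 ≤ ∑ d ∈ hDfin.toFinset, ⟪S' d, d⟫_ℝ} := by
      refine closedConvexHull_min ?_ ?_ ?_
      · rintro _ ⟨g, rfl⟩
        have hg : U g v ∈ ⋃ y ∈ D, Metric.ball y (‖v‖ / 2) := hDcov ⟨g, rfl⟩
        simp only [Set.mem_iUnion, Metric.mem_ball, exists_prop] at hg
        obtain ⟨d, hdD, hd⟩ := hg
        have h1 : ‖v‖ ^ 2 / 2 ≤ ⟪U g v, d⟫_ℝ := by
          have h2 : ⟪U g v, d⟫_ℝ = ‖v‖ ^ 2 - ⟪U g v, U g v - d⟫_ℝ := by
            rw [inner_sub_right, real_inner_self_eq_norm_sq, hU]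
            ring
          have h3 : ⟪U g v, U g v - d⟫_ℝ ≤ ‖v‖ * (‖v‖ / 2) := by
            refine (real_inner_le_norm _ _).trans ?_
            rw [hU]
            refine mul_le_mul_of_nonneg_left ?_ (norm_nonneg _)
            rw [← dist_eq_norm]
            exact hd.le
          rw [h2]
          nlinarith
        have h4 : ∀ d' : H, ⟪opRk (U g v) d', d'⟫_ℝ = ⟪U g v, d'⟫_ℝ ^ 2 := by
          intro d'
          rw [op_rk_apply, real_inner_smul_left]
          ring
        show ‖v‖ ^ 4 / 4 ≤ ∑ d ∈ hDfin.toFinset, ⟪opRk (U g v) d, d⟫_ℝ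
        simp only [h4]
        refine le_trans ?_ (Finset.single_le_sum (f := fun d' => ⟪U g v, d'⟫_ℝ ^ 2)
          (fun i _ => sq_nonneg _) (hDfin.mem_toFinset.2 hdD))
        have h5 : (0 : ℝ) ≤ ‖v‖ ^ 2 / 2 := by positivity
        have h6 := mul_self_le_mul_self h5 h1
        calc ‖v‖ ^ 4 / 4 = (‖v‖ ^ 2 / 2) * (‖v‖ ^ 2 / 2) := by ring
          _ ≤ _ := h6
          _ = _ := by ring
      · intro S₁ h₁ S₂ h₂ a b ha hb hab
        simp only [Set.mem_ofPred_eq, add_apply,
          smul_apply, inner_add_left, real_inner_smul_left,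
          Finset.sum_add_distrib, ← Finset.mul_sum] at h₁ h₂ ⊢
        calc ‖v‖ ^ 4 / 4 = a * (‖v‖ ^ 4 / 4) + b * (‖v‖ ^ 4 / 4) := by rw [← add_mul, hab, one_mul]
          _ ≤ _ := add_le_add (mul_le_mul_of_nonneg_left h₁ ha) (mul_le_mul_of_nonneg_left h₂ hb)
      · exact isClosed_le continuous_const hFcont
    have h1 := hsub hSQ
    rintro rfl
    simp only [Set.mem_ofPred_eq, zero_apply, inner_zero_left,
      Finset.sum_const_zero] at h1
    have : 0 < ‖v‖ ^ 4 / 4 := by positivity
    linarith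
  · -- compact
    have hsub : closedConvexHull ℝ (Set.range fun g => opRk (U g v)) ⊆
        ((compactOperator (RingHom.id ℝ) H H : Submodule ℝ (H →L[ℝ] H)) : Set (H →L[ℝ] H)) := by
      refine closedConvexHull_min ?_ (Submodule.convex _) ?_
      · rintro _ ⟨g, rfl⟩
        have h1 : IsCompactOperator (innerSL ℝ (U g v)) :=
          isCompactOperator_of_locallyCompactSpace_dom _
        exact h1.clm_comp (ContinuousLinearMap.toSpanSingleton ℝ (U g v))
      · exact isClosed_setOfPred_isCompactOperator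
    exact hsub hSQ
  · -- symmetric
    have hsub : closedConvexHull ℝ (Set.range fun g => opRk (U g v)) ⊆
        {S' : H →L[ℝ] H | ∀ x y, ⟪S' x, y⟫_ℝ = ⟪x, S' y⟫_ℝ} := by
      refine closedConvexHull_min ?_ ?_ ?_
      · rintro _ ⟨g, rfl⟩ x y
        rw [op_rk_apply, op_rk_apply, real_inner_smul_left, real_inner_smul_right,
          real_inner_comm (U g v) x]
        ring
      · intro S₁ h₁ S₂ h₂ a b _ _ _ x y
        simp only [add_apply, smul_apply, inner_add_left,
          inner_add_right, real_inner_smul_left, real_inner_smul_right, h₁ x y, h₂ x y]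
      · simp only [Set.ofPred_forall]
        refine isClosed_iInter fun x => isClosed_iInter fun y => ?_
        exact isClosed_eq (by fun_prop) (by fun_prop)
    exact fun x y => hsub hSQ x y
  · intro g x
    have h1 := congrArg (fun S' : H →L[ℝ] H => S' (U g x)) (hSfix g)
    simp only [op_conj_apply, op_inv_apply] at h1
    exact h1

end Pool.Agent.Comb7f333f.DPart
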