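import Mathlib

set_option autoImplicit false

/-!
# Finite-dimensional orthogonal representations from a compact operator

Let `U` be an orthogonal representation of a group `G` on a real Hilbert space, commuting with a
nonzero compact symmetric operator `T`.  An eigenspace of `T` for a nonzero eigenvalue is
finite-dimensional and invariant, so that it carries a matrix representation `σ : G → O(m)`.
If `U` is continuous at `1` with respect to a filter base of subgroups, one of these subgroups lies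
in the kernel of `σ` (no small subgroups).
-/

namespace Pool.Agent.Comb7f333f.DPart

open Filter Topology

/-- No small subgroups, for one vector. -/
theorem re_nss {H : Type*} [NormedAddCommGroup H] [NormedSpace ℝ H]
    {G : Type*} [Group G] (U : G →* (H →L[ℝ] H)) (E : Submodule ℝ H)
    (hE : ∀ g, ∀ v ∈ E, U g v ∈ E) (V : Subgroup G)
    (hV : ∀ g ∈ V, ∀ v ∈ E, ‖U g v - v‖ ≤ (1 / 2) * ‖v‖) :
    ∀ g ∈ V, ∀ v ∈ E, U g v = v := by
  intro g hg v hv
  set x : H := U g v - v with hx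
  have hxE : x ∈ E := E.sub_mem (hE g v hv) hv
  have htel : ∀ n : ℕ, ∑ k ∈ Finset.range n, U (g ^ k) x = U (g ^ n) v - v := by
    intro n
    induction n with
    | zero => simp
    | succ n ih =>
      rw [Finset.sum_range_succ, ih, hx, map_sub, pow_succ, map_mul]
      simp only [mul_apply_eq_comp]
      abel
  have hb : ∀ n : ℕ, (n : ℝ) * ‖x‖ ≤ ‖v‖ := by
    intro n
    have h1 : (n : ℝ) • x = (U (g ^ n) v - v) + ∑ k ∈ Finset.range n, (x - U (g ^ k) x) := by
      rw [Finset.sum_sub_distrib, htel]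
      simp [Nat.cast_smul_eq_nsmul]
    have h2 : ‖(n : ℝ) • x‖ = (n : ℝ) * ‖x‖ := by
      rw [norm_smul]; simp
    have h3 : ‖∑ k ∈ Finset.range n, (x - U (g ^ k) x)‖ ≤ (n : ℝ) * ((1 / 2) * ‖x‖) := by
      refine (norm_sum_le _ _).trans ?_
      have : ∀ k ∈ Finset.range n, ‖x - U (g ^ k) x‖ ≤ (1 / 2) * ‖x‖ := by
        intro k _
        rw [norm_sub_rev]
        exact hV _ (V.pow_mem hg k) x hxE
      refine (Finset.sum_le_sum this).trans ?_
      simp
    have h4 : ‖U (g ^ n) v - v‖ ≤ (1 / 2) * ‖v‖ := hV _ (V.pow_mem hg n) v hv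
    have h5 : (n : ℝ) * ‖x‖ ≤ (1 / 2) * ‖v‖ + (n : ℝ) * ((1 / 2) * ‖x‖) := by
      rw [← h2, h1]
      exact (norm_add_le _ _).trans (add_le_add h4 h3)
    linarith
  have hx0 : ‖x‖ ≤ 0 := by
    by_contra hcon
    push Not at hcon
    obtain ⟨n, hn⟩ := exists_nat_gt (‖v‖ / ‖x‖)
    have := hb n
    rw [div_lt_iff₀ hcon] at hn
    linarith
  have : x = 0 := norm_le_zero_iff.mp hx0
  rw [hx] at this
  exact sub_eq_zero.mp this

theorem re_inner {H : Type*} [NormedAddCommGroup H] [InnerProductSpace ℝ H]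
    (A : H →L[ℝ] H) (hA : ∀ v, ‖A v‖ = ‖v‖) (x y : H) :
    inner ℝ (A x) (A y) = inner ℝ x y := by
  have : ∀ v, ‖(A : H →ₗ[ℝ] H) v‖ = ‖v‖ := hA
  exact LinearIsometry.inner_map_map (⟨(A : H →ₗ[ℝ] H), this⟩ : H →ₗᵢ[ℝ] H) x y

/-- Finite intersections in a filter base of subgroups. -/
theorem re_base {G : Type*} [Group G] {𝒰 : Set (Subgroup G)} (h𝒰ne : 𝒰.Nonempty)
    (h𝒰 : ∀ V ∈ 𝒰, ∀ V' ∈ 𝒰, ∃ W ∈ 𝒰, W ≤ V ∧ W ≤ V') {ι : Type*} (s : Finset ι)
    (P : ι → G → Prop) (hP : ∀ i ∈ s, ∃ V ∈ 𝒰, ∀ g ∈ V, P i g) :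
    ∃ V ∈ 𝒰, ∀ g ∈ V, ∀ i ∈ s, P i g := by
  classical
  induction s using Finset.induction_on with
  | empty =>
    obtain ⟨V, hV⟩ := h𝒰ne
    exact ⟨V, hV, fun g _ i hi => absurd hi (Finset.notMem_empty i)⟩
  | insert a s ha ih =>
    obtain ⟨V, hV, hV'⟩ := ih fun i hi => hP i (Finset.mem_insert_of_mem hi)
    obtain ⟨V1, hV1, hV1'⟩ := hP a (Finset.mem_insert_self a s)
    obtain ⟨W, hW, hWV, hWV1⟩ := h𝒰 V hV V1 hV1
    refine ⟨W, hW, fun g hg i hi => ?_⟩
    rcases Finset.mem_insert.mp hi with rfl | hi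
    · exact hV1' g (hWV1 hg)
    · exact hV' g (hWV hg) i hi

theorem exists_rep_of_op {H : Type*} [NormedAddCommGroup H] [InnerProductSpace ℝ H]
    [CompleteSpace H] {G : Type*} [Group G] (U : G →* (H →L[ℝ] H)) (hU : ∀ g v, ‖U g v‖ = ‖v‖)
    (T : H →L[ℝ] H) (hT0 : T ≠ 0) (hTc : IsCompactOperator T)
    (hTs : (T : H →ₗ[ℝ] H).IsSymmetric) (hTU : ∀ g x, U g (T x) = T (U g x))
    (z : G) (hz : ∀ v, U z v = -v)
    (𝒰 : Set (Subgroup G)) (h𝒰ne : 𝒰.Nonempty)
    (h𝒰 : ∀ V ∈ 𝒰, ∀ V' ∈ 𝒰, ∃ W ∈ 𝒰, W ≤ V ∧ W ≤ V')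
    (hcont : ∀ (v : H) (ε : ℝ), 0 < ε → ∃ V ∈ 𝒰, ∀ g ∈ V, ‖U g v - v‖ ≤ ε) :
    ∃ (m : ℕ) (_ : 0 < m) (σ : G →* Matrix.orthogonalGroup (Fin m) ℝ),
      (∃ V ∈ 𝒰, ∀ g ∈ V, σ g = 1) ∧ (σ z : Matrix (Fin m) (Fin m) ℝ) = -1 := by
  classical
  -- an eigenvalue
  obtain ⟨μ, hμ, hμ0⟩ : ∃ μ, Module.End.HasEigenvalue (T : Module.End ℝ H) μ ∧ μ ≠ 0 := by
    by_contra hcon
    push Not at hcon
    exact hT0 ((ContinuousLinearMap.eq_zero_of_forall_hasEigenvalue_eq_zero hTc hTs).mp hcon)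
  set E : Submodule ℝ H := Module.End.eigenspace (T : Module.End ℝ H) μ with hE
  have hfin : FiniteDimensional ℝ E :=
    ContinuousLinearMap.finite_dimensional_eigenspace hTc μ hμ0
  have hEinv : ∀ g, ∀ v ∈ E, U g v ∈ E := by
    intro g v hv
    rw [hE, Module.End.mem_eigenspace_iff] at hv ⊢
    have hv' : T v = μ • v := hv
    change T (U g v) = μ • U g v
    rw [← hTU, hv', map_smul]
  set m : ℕ := Module.finrank ℝ E with hm
  have hmpos : 0 < m := by
    rw [hm, Module.finrank_pos_iff_exists_ne_zero]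
    obtain ⟨v, hv⟩ := hμ.exists_hasEigenvector
    exact ⟨⟨v, hv.1⟩, fun h => hv.2 (congrArg Subtype.val h)⟩
  let b : OrthonormalBasis (Fin m) ℝ E := stdOrthonormalBasis ℝ E
  let c : Fin m → H := fun i => (b i : H)
  have hcE : ∀ i, c i ∈ E := fun i => (b i).2
  have hcc : ∀ i j, inner ℝ (c i) (c j) = if i = j then (1 : ℝ) else 0 := by
    intro i j
    have := orthonormal_iff_ite.mp b.orthonormal i j
    rwa [Submodule.coe_inner] at this
  have hexp : ∀ v ∈ E, v = ∑ i, (inner ℝ (c i) v : ℝ) • c i := by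
    intro v hv
    have h1 := b.sum_repr' ⟨v, hv⟩
    have h2 := congrArg (Subtype.val : E → H) h1
    simp only [Submodule.coe_sum, Submodule.coe_smul, Submodule.coe_inner] at h2
    exact h2.symm
  have hinner : ∀ v ∈ E, ∀ w : H, inner ℝ v w = ∑ i, (inner ℝ (c i) v : ℝ) * inner ℝ (c i) w := by
    intro v hv w
    conv_lhs => rw [hexp v hv]
    rw [sum_inner]
    refine Finset.sum_congr rfl fun i _ => ?_
    rw [inner_smul_left]
    simp
  let M : G → Matrix (Fin m) (Fin m) ℝ := fun g => Matrix.of fun i j => inner ℝ (c i) (U g (c j))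
  have hMapp : ∀ g i j, M g i j = inner ℝ (c i) (U g (c j)) := fun g i j => rfl
  have hMorth : ∀ g, M g ∈ Matrix.orthogonalGroup (Fin m) ℝ := by
    intro g
    rw [Matrix.mem_orthogonalGroup_iff']
    ext i j
    rw [Matrix.mul_apply, Matrix.one_apply]
    have h1 := hinner (U g (c i)) (hEinv g _ (hcE i)) (U g (c j))
    rw [re_inner (U g) (hU g), hcc] at h1
    rw [h1]
    refine Finset.sum_congr rfl fun k _ => ?_
    rw [Matrix.transpose_apply, hMapp, hMapp]
  have hMmul : ∀ g h, M (g * h) = M g * M h := by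
    intro g h
    ext i j
    rw [Matrix.mul_apply, hMapp, map_mul, mul_apply_eq_comp,
      hexp (U h (c j)) (hEinv h _ (hcE j)), map_sum, inner_sum]
    refine Finset.sum_congr rfl fun k _ => ?_
    rw [map_smul, inner_smul_right, hMapp, hMapp]
    ring
  have hMone : M 1 = 1 := by
    ext i j
    rw [hMapp, map_one, one_apply_eq_self, hcc, Matrix.one_apply]
  let σ : G →* Matrix.orthogonalGroup (Fin m) ℝ :=
    { toFun := fun g => ⟨M g, hMorth g⟩
      map_one' := Subtype.ext hMone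
      map_mul' := fun g h => Subtype.ext (hMmul g h) }
  have hσ : ∀ g, (σ g : Matrix (Fin m) (Fin m) ℝ) = M g := fun g => rfl
  refine ⟨m, hmpos, σ, ?_, ?_⟩
  · -- an element of the base in the kernel
    set ε : ℝ := 1 / (2 * ((m : ℝ) + 1)) with hε
    have hεpos : 0 < ε := by positivity
    obtain ⟨V, hV, hVs⟩ := re_base h𝒰ne h𝒰 (Finset.univ : Finset (Fin m))
      (fun j g => ‖U g (c j) - c j‖ ≤ ε) (fun j _ => hcont (c j) ε hεpos)
    refine ⟨V, hV, ?_⟩
    have hsmall : ∀ g ∈ V, ∀ v ∈ E, ‖U g v - v‖ ≤ (1 / 2) * ‖v‖ := by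
      intro g hg v hv
      have h1 : U g v - v = ∑ j, (inner ℝ (c j) v : ℝ) • (U g (c j) - c j) := by
        conv_lhs => rw [hexp v hv]
        rw [map_sum, ← Finset.sum_sub_distrib]
        refine Finset.sum_congr rfl fun j _ => ?_
        rw [map_smul, smul_sub]
      have hcn : ∀ j, ‖c j‖ = 1 := by
        intro j
        have := hcc j j
        rw [if_pos rfl, real_inner_self_eq_norm_sq] at this
        have h0 := norm_nonneg (c j)
        nlinarith
      rw [h1]
      refine (norm_sum_le _ _).trans ?_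
      have h2 : ∀ j ∈ (Finset.univ : Finset (Fin m)),
          ‖(inner ℝ (c j) v : ℝ) • (U g (c j) - c j)‖ ≤ ‖v‖ * ε := by
        intro j _
        rw [norm_smul]
        refine mul_le_mul ?_ (hVs g hg j (Finset.mem_univ j)) (norm_nonneg _) (norm_nonneg _)
        have := norm_inner_le_norm (𝕜 := ℝ) (c j) v
        rwa [hcn, one_mul] at this
      refine (Finset.sum_le_sum h2).trans ?_
      rw [Finset.sum_const, Finset.card_univ, Fintype.card_fin, nsmul_eq_mul]
      have h3 : (m : ℝ) * ε ≤ 1 / 2 := by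
        rw [hε]
        rw [mul_one_div, div_le_div_iff₀ (by positivity) (by norm_num)]
        linarith
      have h4 := mul_le_mul_of_nonneg_right h3 (norm_nonneg v)
      linarith
    have hfix := re_nss U E hEinv V hsmall
    intro g hg
    refine Subtype.ext ?_
    rw [hσ]
    ext i j
    rw [hMapp, hfix g hg (c j) (hcE j), hcc]
    simp [Matrix.one_apply]
  · rw [hσ]
    ext i j
    rw [hMapp, hz, inner_neg_right, hcc, Matrix.neg_apply, Matrix.one_apply]

end Pool.Agent.Comb7f333f.DPart
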