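import Pool.Agent.Lib.MP_7f333f_an.RP.Weak

set_option autoImplicit false

/-!
Module SEP of part D: the dual of a combinatorial space is separable (the coordinate functionals
have a dense linear span).
-/

namespace Pool.Agent.Comb7f333f.DPart

open Filter Topology

universe u

section SE

variable {𝓕 : Set (Finset ℕ)} {X : Type*} [NormedAddCommGroup X] [NormedSpace ℝ X] {e : ℕ → X}

/-- Restriction of a finitely supported sequence does not increase the norm. -/
theorem se_filter_le (𝓕 : Set (Finset ℕ)) (a : ℕ →₀ ℝ) (n : ℕ) :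
    combNorm 𝓕 (a.filter (fun k => n ≤ k)) ≤ combNorm 𝓕 a := by
  classical
  refine combNorm_le _ (combNorm_nonneg _ _) fun F hF => ?_
  refine le_trans (Finset.sum_le_sum fun k _ => ?_) (le_combNorm a hF)
  rw [Finsupp.filter_apply]
  split_ifs
  · exact le_rfl
  · rw [abs_zero]; exact abs_nonneg _

theorem se_decomp (a : ℕ →₀ ℝ) (n : ℕ) :
    a = a.filter (fun k => n ≤ k) + ∑ k ∈ Finset.range n, Finsupp.single k (a k) := by
  classical
  ext i
  rw [Finsupp.add_apply, Finsupp.finsetSum_apply, Finsupp.filter_apply]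
  have h2 : ∀ k ∈ Finset.range n, (Finsupp.single k (a k)) i =
      if k = i then a k else 0 := fun k _ => Finsupp.single_apply
  rw [Finset.sum_congr rfl h2, Finset.sum_ite_eq']
  by_cases hi : n ≤ i
  · rw [if_pos hi, if_neg (by rw [Finset.mem_range]; omega), add_zero]
  · rw [if_neg hi, if_pos (by rw [Finset.mem_range]; omega), zero_add]

variable (h : IsRegular 𝓕) (hX : IsCombSpace 𝓕 e)

include h hX

/-- The partial sums of a functional. -/
theorem se_apply (φ : X →L[ℝ] ℝ) (n : ℕ) (a : ℕ →₀ ℝ) :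
    (φ - ∑ k ∈ Finset.range n, φ (e k) • ef e k) (Finsupp.linearCombination ℝ e a) =
      φ (Finsupp.linearCombination ℝ e (a.filter (fun k => n ≤ k))) := by
  classical
  rw [sub_apply, sum_apply]
  have h1 : Finsupp.linearCombination ℝ e a =
      Finsupp.linearCombination ℝ e (a.filter (fun k => n ≤ k)) +
      ∑ k ∈ Finset.range n, a k • e k := by
    conv_lhs => rw [se_decomp a n]
    rw [map_add, map_sum]
    congr 1
    exact Finset.sum_congr rfl fun k _ => Finsupp.linearCombination_single _ _ _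
  have h2 : ∑ k ∈ Finset.range n, (φ (e k) • ef e k) (Finsupp.linearCombination ℝ e a) =
      φ (∑ k ∈ Finset.range n, a k • e k) := by
    rw [map_sum]
    refine Finset.sum_congr rfl fun k _ => ?_
    rw [smul_apply, ef_emb h hX, map_smul, smul_eq_mul, smul_eq_mul, mul_comm]
  rw [h2]
  nth_rewrite 1 [h1]
  rw [map_add, add_sub_cancel_right]

theorem se_exists_small (φ : X →L[ℝ] ℝ) (ε : ℝ) (hε : 0 < ε) :
    ∃ n : ℕ, ‖φ - ∑ k ∈ Finset.range n, φ (e k) • ef e k‖ ≤ ε := by
  classical
  by_contra hcon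
  push Not at hcon
  have h1 : ∀ n : ℕ, ∃ a : ℕ →₀ ℝ, ‖Finsupp.linearCombination ℝ e a‖ < 1 ∧
      ε < ‖(φ - ∑ k ∈ Finset.range n, φ (e k) • ef e k) (Finsupp.linearCombination ℝ e a)‖ := by
    intro n
    obtain ⟨x, hx1, hx2⟩ := ContinuousLinearMap.exists_lt_apply_of_lt_opNorm _ (hcon n)
    have hopen1 : IsOpen {y : X | ‖y‖ < 1} := isOpen_lt continuous_norm continuous_const
    have hopen2 : IsOpen {y : X | ε < ‖(φ - ∑ k ∈ Finset.range n, φ (e k) • ef e k) y‖} :=
      isOpen_lt continuous_const (ContinuousLinearMap.continuous _).norm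
    have hopen : IsOpen {y : X | ‖y‖ < 1 ∧
        ε < ‖(φ - ∑ k ∈ Finset.range n, φ (e k) • ef e k) y‖} := hopen1.inter hopen2
    obtain ⟨y, hy, a, rfl⟩ := hX.dense.inter_open_nonempty _ hopen ⟨x, hx1, hx2⟩
    exact ⟨a, hy⟩
  choose a ha1 ha2 using h1
  have h2 := tendsto_functional_of_ef h hX
    (fun n => Finsupp.linearCombination ℝ e ((a n).filter (fun k => n ≤ k))) 1
    (fun n => by
      rw [hX.norm_eq]
      refine (se_filter_le 𝓕 (a n) n).trans ?_
      rw [← hX.norm_eq]
      exact (ha1 n).le)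
    (fun k => by
      refine tendsto_nhds_of_eventually_eq ?_
      filter_upwards [eventually_gt_atTop k] with n hn
      rw [ef_emb h hX, Finsupp.filter_apply, if_neg (by omega)]) φ
  have h3 := h2.norm
  rw [norm_zero] at h3
  obtain ⟨n, hn⟩ := (h3.eventually_lt_const hε).exists
  have h4 := ha2 n
  rw [se_apply h hX] at h4
  exact lt_irrefl _ (h4.trans hn)

end SE

theorem dual_separable {𝓕 : Set (Finset ℕ)} {X : Type*} [NormedAddCommGroup X] [NormedSpace ℝ X]
    [CompleteSpace X] {e : ℕ → X} (h : IsRegular 𝓕) (hX : IsCombSpace 𝓕 e) :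
    ∃ s : ℕ → (X →L[ℝ] ℝ), DenseRange s := by
  have h1 : TopologicalSpace.IsSeparable
      ((Submodule.span ℝ (Set.range (ef e)) : Submodule ℝ (X →L[ℝ] ℝ)) : Set (X →L[ℝ] ℝ)) :=
    (Set.countable_range (ef e)).isSeparable.span
  have h2 : TopologicalSpace.IsSeparable (Set.univ : Set (X →L[ℝ] ℝ)) := by
    refine h1.closure.mono ?_
    intro φ _
    rw [Metric.mem_closure_iff]
    intro ε hε
    obtain ⟨n, hn⟩ := se_exists_small h hX φ (ε / 2) (by positivity)
    refine ⟨∑ k ∈ Finset.range n, φ (e k) • ef e k, ?_, ?_⟩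
    · exact Submodule.sum_mem _ fun k _ =>
        Submodule.smul_mem _ _ (Submodule.subset_span (Set.mem_range_self k))
    · rw [dist_eq_norm]
      linarith
  have : TopologicalSpace.SeparableSpace (X →L[ℝ] ℝ) := TopologicalSpace.isSeparable_univ_iff.mp h2
  exact TopologicalSpace.exists_dense_seq _

end Pool.Agent.Comb7f333f.DPart
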