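import Pool.Agent.Lib.MP_7f333f_an.D.Hilb
import Pool.Agent.Lib.MP_7f333f_an.D.Min
import Pool.Agent.Lib.MP_7f333f_an.D.Form
import Pool.Agent.Lib.MP_7f333f_an.D.Op
import Pool.Agent.Lib.MP_7f333f_an.D.Rep
import Pool.Agent.Lib.MP_7f333f_an.D.Sep
import Pool.Agent.Lib.MP_7f333f_an.RP.Minimal

set_option autoImplicit false
set_option linter.unusedSectionVars false

/-!
A group acting isometrically for an equivalent norm of a combinatorial space, with an element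
acting as `-1`, either contains a sequence which tends coordinatewise to zero or has a
finite-dimensional orthogonal representation in which this element acts as `-1`; the
representation is continuous if the action is.
-/

namespace Pool.Agent.Comb7f333f.DPart

open Filter Topology

universe u

section Asm

variable {𝓕 : Set (Finset ℕ)} {X : Type u} [NormedAddCommGroup X] [NormedSpace ℝ X]
  [CompleteSpace X] {e : ℕ → X} {N : Seminorm ℝ X} {c C : ℝ}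

/-- The isometries for `N` as continuous linear operators. -/
noncomputable def opHom (hc : 0 < c) (hN : ∀ x, c * ‖x‖ ≤ N x ∧ N x ≤ C * ‖x‖) {G : Type*}
    [Group G] (Φ : G →* isomGroup N) : G →* (X →L[ℝ] X) where
  toFun g := ((Φ g : X ≃ₗ[ℝ] X) : X →ₗ[ℝ] X).mkContinuous (C / c)
    (fun x => isom_norm_le hc hN (Φ g) x)
  map_one' := by
    ext x
    simp only [LinearMap.mkContinuous_apply, map_one]
    rfl
  map_mul' g g' := by
    ext x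
    simp only [LinearMap.mkContinuous_apply, map_mul]
    rfl

theorem opHom_apply (hc : 0 < c) (hN : ∀ x, c * ‖x‖ ≤ N x ∧ N x ≤ C * ‖x‖) {G : Type*}
    [Group G] (Φ : G →* isomGroup N) (g : G) (x : X) :
    opHom hc hN Φ g x = (Φ g : X ≃ₗ[ℝ] X) x := rfl

/-- The abstract part: a nonzero functional with a totally bounded orbit gives an odd
finite-dimensional representation. -/
theorem exists_rep_of_tb {G : Type*} [Group G] (A : G →* (X →L[ℝ] X)) (K : ℝ)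
    (hA : ∀ g, ‖A g‖ ≤ K) (φ : X →L[ℝ] ℝ) (hφ : φ ≠ 0)
    (hTB : TotallyBounded (Set.range fun g => φ.comp (A g)))
    (z : G) (hz : ∀ x, A z x = -x)
    (𝒰 : Set (Subgroup G)) (h𝒰ne : 𝒰.Nonempty)
    (h𝒰 : ∀ V ∈ 𝒰, ∀ V' ∈ 𝒰, ∃ W ∈ 𝒰, W ≤ V ∧ W ≤ V')
    (hcont : ∀ (x : X) (ε : ℝ), 0 < ε → ∃ V ∈ 𝒰, ∀ g ∈ V, ‖A g x - x‖ ≤ ε) :
    ∃ (m : ℕ) (_ : 0 < m) (σ : G →* Matrix.orthogonalGroup (Fin m) ℝ),
      (∃ V ∈ 𝒰, ∀ g ∈ V, σ g = 1) ∧ (σ z : Matrix (Fin m) (Fin m) ℝ) = -1 := by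
  obtain ⟨B, hB1, hB2, ⟨x0, hx0⟩, hB4, hB5⟩ := exists_form A K hA φ hφ hTB
  obtain ⟨H, _, _, _, ι, U, hι1, hι2, hι3, hU⟩ := exists_hilbert A B hB1 hB2 hB4
  have hB0 : 0 ≤ ‖B‖ := norm_nonneg B
  have hιle : ∀ x, ‖ι x‖ ^ 2 ≤ ‖B‖ * ‖x‖ ^ 2 := by
    intro x
    rw [hι1]
    calc B x x ≤ ‖B x x‖ := le_abs_self _
      _ ≤ ‖B‖ * ‖x‖ * ‖x‖ := B.le_opNorm₂ x x
      _ = ‖B‖ * ‖x‖ ^ 2 := by ring
  have hUsub : ∀ g v w, ‖U g v - U g w‖ = ‖v - w‖ := by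
    intro g v w
    rw [← map_sub, hU]
  obtain ⟨T, hT0, hT1, hT2, hT3⟩ := exists_compact_op U hU (ι x0) (by
    intro h0
    apply hx0
    rw [← hι1, h0, norm_zero]
    norm_num) (by
    rw [Metric.totallyBounded_iff]
    intro ε hε
    obtain ⟨D, hD1, hD2⟩ := hB5 x0 (ε ^ 2 / 4) (by positivity)
    refine ⟨ι '' D, hD1.image ι, ?_⟩
    rintro _ ⟨g, rfl⟩
    obtain ⟨d, hd, hd2⟩ := hD2 g
    refine Set.mem_iUnion₂.mpr ⟨ι d, ⟨d, hd, rfl⟩, ?_⟩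
    rw [Metric.mem_ball, dist_eq_norm]
    beta_reduce
    rw [hι3, ← map_sub]
    have h1 := hι1 (A g x0 - d)
    have h2 : ‖ι (A g x0 - d)‖ ^ 2 ≤ ε ^ 2 / 4 := by rw [h1]; exact hd2
    have h3 : 0 ≤ ‖ι (A g x0 - d)‖ := norm_nonneg _
    nlinarith)
  refine exists_rep_of_op U hU T hT0 hT1 hT2 hT3 z ?_ 𝒰 h𝒰ne h𝒰 ?_
  · intro v
    refine hι2.induction_on (p := fun v => U z v = -v) v (isClosed_eq (by fun_prop) (by fun_prop))
      fun x => ?_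
    rw [hι3, hz, map_neg]
  · intro v ε hε
    obtain ⟨x, hx⟩ := hι2.exists_dist_lt v (show 0 < ε / 4 by positivity)
    rw [dist_eq_norm] at hx
    obtain ⟨V, hV, hV2⟩ := hcont x (ε / (4 * (‖B‖ + 1))) (by positivity)
    refine ⟨V, hV, fun g hg => ?_⟩
    have h1 := hV2 g hg
    have h2 : ‖U g (ι x) - ι x‖ ≤ ε / 2 := by
      rw [hι3, ← map_sub]
      have h3 := hιle (A g x - x)
      have h4 : ‖A g x - x‖ ^ 2 ≤ (ε / (4 * (‖B‖ + 1))) ^ 2 :=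
        pow_le_pow_left₀ (norm_nonneg _) h1 2
      have h5 : ‖B‖ * (ε / (4 * (‖B‖ + 1))) ^ 2 ≤ (ε / 2) ^ 2 := by
        rw [div_pow, div_pow]
        have h6 : 0 < (4 * (‖B‖ + 1)) ^ 2 := by positivity
        rw [← mul_div_assoc, div_le_div_iff₀ h6 (by norm_num)]
        nlinarith [sq_nonneg ‖B‖, sq_nonneg ε, mul_nonneg hB0 (sq_nonneg ε),
          mul_nonneg (mul_nonneg hB0 hB0) (sq_nonneg ε)]
      have h7 : ‖ι (A g x - x)‖ ^ 2 ≤ (ε / 2) ^ 2 :=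
        h3.trans ((mul_le_mul_of_nonneg_left h4 hB0).trans h5)
      exact (abs_le_of_sq_le_sq' h7 (by positivity)).2
    have h3 : U g v - v = (U g v - U g (ι x)) + (U g (ι x) - ι x) + (ι x - v) := by abel
    rw [h3]
    refine (norm_add_le _ _).trans ?_
    have h4 := norm_add_le (U g v - U g (ι x)) (U g (ι x) - ι x)
    have h5 := hUsub g v (ι x)
    have h6 : ‖ι x - v‖ = ‖v - ι x‖ := norm_sub_rev _ _
    linarith

theorem exists_rep_or_null (h : IsRegular 𝓕) (hX : IsCombSpace 𝓕 e) (hc : 0 < c)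
    (hN : ∀ x, c * ‖x‖ ≤ N x ∧ N x ≤ C * ‖x‖) {G : Type*} [Group G] (Φ : G →* isomGroup N)
    (z : G) (hz : ∀ x, (Φ z : X ≃ₗ[ℝ] X) x = -x)
    (𝒰 : Set (Subgroup G)) (h𝒰ne : 𝒰.Nonempty)
    (h𝒰 : ∀ V ∈ 𝒰, ∀ V' ∈ 𝒰, ∃ W ∈ 𝒰, W ≤ V ∧ W ≤ V')
    (hcont : ∀ (x : X) (ε : ℝ), 0 < ε → ∃ V ∈ 𝒰, ∀ g ∈ V, N ((Φ g : X ≃ₗ[ℝ] X) x - x) ≤ ε) :
    (∃ γ : ℕ → G, ∀ x k, Tendsto (fun j => ef e k ((Φ (γ j) : X ≃ₗ[ℝ] X) x)) atTop (𝓝 0)) ∨
    ∃ (m : ℕ) (_ : 0 < m) (σ : G →* Matrix.orthogonalGroup (Fin m) ℝ),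
      (∃ V ∈ 𝒰, ∀ g ∈ V, σ g = 1) ∧ (σ z : Matrix (Fin m) (Fin m) ℝ) = -1 := by
  have hsep := separable_of_isCombSpace hX
  have hC : 0 ≤ C / c := by
    rcases le_or_gt 0 C with hC | hC
    · positivity
    · -- then `X` is trivial
      exfalso
      have hne : e 0 ≠ 0 := by
        intro h0
        have h1 := ef_basis h hX 0 0
        rw [h0, map_zero, if_pos rfl] at h1
        exact zero_ne_one h1
      have h1 := hN (e 0)
      have h2 : 0 < ‖e 0‖ := norm_pos_iff.mpr hne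
      nlinarith
  have hA : ∀ g, ‖opHom hc hN Φ g‖ ≤ C / c := fun g =>
    ContinuousLinearMap.opNorm_le_bound _ hC fun x => isom_norm_le hc hN (Φ g) x
  rcases exists_tb_or_null (opHom hc hN Φ) (C / c) hA
    ⟨_, TopologicalSpace.denseRange_denseSeq X⟩ (dual_separable h hX) with ⟨φ, hφ, hTB⟩ | ⟨γ, hγ⟩
  · right
    refine exists_rep_of_tb (opHom hc hN Φ) (C / c) hA φ hφ hTB z hz 𝒰 h𝒰ne h𝒰 ?_
    intro x ε hε
    obtain ⟨V, hV, hV2⟩ := hcont x (c * ε) (by positivity)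
    refine ⟨V, hV, fun g hg => ?_⟩
    have h1 := hV2 g hg
    have h2 := (hN ((Φ g : X ≃ₗ[ℝ] X) x - x)).1
    rw [opHom_apply]
    exact le_of_mul_le_mul_left (h2.trans h1) hc
  · left
    exact ⟨γ, fun x k => hγ x (ef e k)⟩

end Asm

end Pool.Agent.Comb7f333f.DPart
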