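import Pool.Agent.Lib.MP_7f333f_an.D.Asm
import Pool.Agent.Lib.MP_7f333f_an.Main

set_option autoImplicit false
set_option linter.unusedSectionVars false

/-!
The closed subgroups of `SYM(ℕ)` which are topologically displayable on a combinatorial space
without coordinatewise null sequences of isometries.
-/

namespace Pool.Agent.Comb7f333f.DPart

open Filter Topology Equiv

universe u

variable {𝓕 : Set (Finset ℕ)} {X : Type u} [NormedAddCommGroup X] [NormedSpace ℝ X]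
  [CompleteSpace X] {e : ℕ → X}

/-- For no equivalent norm there is a sequence of isometries tending coordinatewise to zero. -/
def NoNullIsom (e : ℕ → X) : Prop :=
  ∀ (N : Seminorm ℝ X) (c C : ℝ), 0 < c → (∀ x, c * ‖x‖ ≤ N x ∧ N x ≤ C * ‖x‖) →
    ∀ g : ℕ → isomGroup N,
      ¬ ∀ x k, Tendsto (fun n => ef e k ((g n : X ≃ₗ[ℝ] X) x)) atTop (𝓝 0)

/-- Groups which are abstractly isomorphic to the isometry group for an equivalent norm. -/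
theorem exists_rep_of_displayable (h : IsRegular 𝓕) (hX : IsCombSpace 𝓕 e)
    (hW : NoNullIsom e) {G : Type*} [Group G] {N : Seminorm ℝ X} {c C : ℝ} (hc : 0 < c)
    (hN : ∀ x, c * ‖x‖ ≤ N x ∧ N x ≤ C * ‖x‖) (Φ : G ≃* isomGroup N)
    (𝒰 : Set (Subgroup G)) (h𝒰ne : 𝒰.Nonempty)
    (h𝒰 : ∀ V ∈ 𝒰, ∀ V' ∈ 𝒰, ∃ W ∈ 𝒰, W ≤ V ∧ W ≤ V')
    (hcont : ∀ (x : X) (ε : ℝ), 0 < ε → ∃ V ∈ 𝒰, ∀ g ∈ V, N ((Φ g : X ≃ₗ[ℝ] X) x - x) ≤ ε) :
    ∃ z : G, (∀ g : G, g * z = z * g) ∧ z * z = 1 ∧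
      ∃ (m : ℕ) (_ : 0 < m) (σ : G →* Matrix.orthogonalGroup (Fin m) ℝ),
        (∃ V ∈ 𝒰, ∀ g ∈ V, σ g = 1) ∧ (σ z : Matrix (Fin m) (Fin m) ℝ) = -1 := by
  set ν : isomGroup N := ⟨LinearEquiv.neg ℝ, fun x => by
    rw [LinearEquiv.neg_apply, map_neg_eq_map]⟩ with hν
  have hνc : ∀ g : isomGroup N, g * ν = ν * g := by
    intro g
    refine Subtype.ext (LinearEquiv.ext fun x => ?_)
    show (g : X ≃ₗ[ℝ] X) (-x) = -((g : X ≃ₗ[ℝ] X) x)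
    rw [map_neg]
  have hνν : ν * ν = 1 := by
    refine Subtype.ext (LinearEquiv.ext fun x => ?_)
    show -(-x) = x
    rw [neg_neg]
  refine ⟨Φ.symm ν, fun g => ?_, ?_, ?_⟩
  · apply Φ.injective
    rw [map_mul, map_mul, MulEquiv.apply_symm_apply, hνc]
  · apply Φ.injective
    rw [map_mul, MulEquiv.apply_symm_apply, hνν, map_one]
  · rcases exists_rep_or_null h hX hc hN (Φ : G →* isomGroup N) (Φ.symm ν) (fun x => by
      show (Φ (Φ.symm ν) : X ≃ₗ[ℝ] X) x = -x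
      rw [MulEquiv.apply_symm_apply]
      rfl) 𝒰 h𝒰ne h𝒰 hcont with ⟨γ, hγ⟩ | hσ
    · exact (hW N c C hc hN (fun n => Φ (γ n)) hγ).elim
    · exact hσ

/-- The pointwise stabilisers of finite sets. -/
def finStab (G : Subgroup (Perm ℕ)) (F : Finset ℕ) : Subgroup G where
  carrier := {g | ∀ n ∈ F, (g : Perm ℕ) n = n}
  one_mem' := fun n _ => rfl
  mul_mem' {a b} ha hb n hn := by
    show (a : Perm ℕ) ((b : Perm ℕ) n) = n
    rw [hb n hn, ha n hn]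
  inv_mem' {a} ha n hn := by
    show (a : Perm ℕ)⁻¹ n = n
    rw [Perm.inv_eq_iff_eq, ha n hn]

theorem displayable_iff (h : IsRegular 𝓕) (hX : IsCombSpace 𝓕 e) (hW : NoNullIsom e)
    (G : Subgroup (Perm ℕ)) (hG : IsClosedPerm G) :
    (∃ N : Seminorm ℝ X, (∃ c C : ℝ, 0 < c ∧ ∀ x, c * ‖x‖ ≤ N x ∧ N x ≤ C * ‖x‖) ∧
      ∃ Φ : G ≃* isomGroup N,
        (∀ x, ∀ ε > 0, ∃ F : Finset ℕ, ∀ g : G, (∀ n ∈ F, (g : Perm ℕ) n = n) →
          N ((Φ g : X ≃ₗ[ℝ] X) x - x) < ε) ∧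
        (∀ n, ∃ x, ∃ ε > 0, ∀ g : G, N ((Φ g : X ≃ₗ[ℝ] X) x - x) < ε →
          (g : Perm ℕ) n = n)) ↔
    ∃ z : G, (∀ g : G, g * z = z * g) ∧ z * z = 1 ∧
      ∃ (m : ℕ) (_ : 0 < m) (σ : G →* Matrix.orthogonalGroup (Fin m) ℝ),
        (∃ F : Finset ℕ, ∀ g : G, (∀ n ∈ F, (g : Perm ℕ) n = n) → σ g = 1) ∧
          (σ z : Matrix (Fin m) (Fin m) ℝ) = -1 := by
  constructor
  · rintro ⟨N, ⟨c, C, hc, hN⟩, Φ, hΦ1, _⟩
    obtain ⟨z, hz, hzz, m, hm, σ, ⟨V, ⟨F, hF⟩, hV⟩, hσz⟩ :=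
      exists_rep_of_displayable h hX hW hc hN Φ (Set.range (finStab G)) ⟨_, ∅, rfl⟩ (by
        classical
        rintro _ ⟨F, rfl⟩ _ ⟨F', rfl⟩
        exact ⟨_, ⟨F ∪ F', rfl⟩, fun g hg n hn => hg n (Finset.mem_union_left _ hn),
          fun g hg n hn => hg n (Finset.mem_union_right _ hn)⟩) (by
        intro x ε hε
        obtain ⟨F, hF⟩ := hΦ1 x ε hε
        exact ⟨_, ⟨F, rfl⟩, fun g hg => (hF g hg).le⟩)
    refine ⟨z, hz, hzz, m, hm, σ, ⟨F, fun g hg => hV g ?_⟩, hσz⟩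
    rw [← hF]
    exact hg
  · rintro ⟨z, hz, hzz, m, hm, σ, hσ, hσz⟩
    exact main h hX G hG z hz hzz hm σ hσ hσz

end Pool.Agent.Comb7f333f.DPart
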