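import Mathlib

set_option autoImplicit false

/-!
Module D-HILB: the Hilbert space of an invariant positive semidefinite form.
-/

namespace Pool.Agent.Comb7f333f.DPart

open Filter Topology

universe u

/-- A type synonym of `X` without its norm. -/
def HiSyn (X : Type u) : Type u := X

instance hiAddCommGroup (X : Type u) [NormedAddCommGroup X] : AddCommGroup (HiSyn X) :=
  inferInstanceAs (AddCommGroup X)

instance hiModule (X : Type u) [NormedAddCommGroup X] [NormedSpace ℝ X] : Module ℝ (HiSyn X) :=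
  inferInstanceAs (Module ℝ X)

/-- The semi-inner product core of a positive semidefinite symmetric form. -/
@[reducible]
noncomputable def hiCore {X : Type u} [NormedAddCommGroup X] [NormedSpace ℝ X]
    (B : X →L[ℝ] X →L[ℝ] ℝ) (hsymm : ∀ x y, B x y = B y x) (hpos : ∀ x, 0 ≤ B x x) :
    PreInnerProductSpace.Core ℝ (HiSyn X) where
  inner x y := B (show X from x) (show X from y)
  conj_inner_symm x y := by simpa using hsymm y x
  re_inner_nonneg x := by simpa using hpos x
  add_left x y z := by
    have h : B ((show X from x) + (show X from y)) (show X from z)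
        = B (show X from x) (show X from z) + B (show X from y) (show X from z) := by
      simp
    exact h
  smul_left x y r := by
    have h : B (r • (show X from x)) (show X from y)
        = r * B (show X from x) (show X from y) := by
      simp
    exact h

theorem hi_space {X : Type u} [NormedAddCommGroup X] [NormedSpace ℝ X]
    (B : X →L[ℝ] X →L[ℝ] ℝ) (hsymm : ∀ x y, B x y = B y x) (hpos : ∀ x, 0 ≤ B x x) :
    ∃ (H : Type u) (_ : NormedAddCommGroup H) (_ : InnerProductSpace ℝ H) (_ : CompleteSpace H)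
      (ι : X →ₗ[ℝ] H), (∀ x, ‖ι x‖ ^ 2 = B x x) ∧ DenseRange ι := by
  let c : PreInnerProductSpace.Core ℝ (HiSyn X) := hiCore B hsymm hpos
  let _ : SeminormedAddCommGroup (HiSyn X) :=
    InnerProductSpace.Core.toSeminormedAddCommGroup (c := c)
  let _ : InnerProductSpace ℝ (HiSyn X) := InnerProductSpace.ofCore c
  let e : X →ₗ[ℝ] HiSyn X :=
    { toFun := fun x => x
      map_add' := fun _ _ => rfl
      map_smul' := fun _ _ => rfl }
  refine ⟨UniformSpace.Completion (HiSyn X), inferInstance, inferInstance, inferInstance,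
    (UniformSpace.Completion.toComplL (𝕜 := ℝ) (E := HiSyn X)).toLinearMap.comp e, ?_, ?_⟩
  · intro x
    have h1 : ‖((e x : HiSyn X) : UniformSpace.Completion (HiSyn X))‖ = ‖e x‖ :=
      UniformSpace.Completion.norm_coe _
    have h2 : ‖e x‖ ^ 2 = B x x := by
      have h3 : ‖e x‖ = √(B x x) := rfl
      rw [h3, Real.sq_sqrt (hpos x)]
    change ‖((e x : HiSyn X) : UniformSpace.Completion (HiSyn X))‖ ^ 2 = B x x
    rw [h1, h2]
  · have h := UniformSpace.Completion.denseRange_coe (α := HiSyn X)
    exact h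

theorem exists_hilbert {X : Type u} [NormedAddCommGroup X] [NormedSpace ℝ X] {G : Type*} [Group G]
    (A : G →* (X →L[ℝ] X)) (B : X →L[ℝ] X →L[ℝ] ℝ) (hsymm : ∀ x y, B x y = B y x)
    (hpos : ∀ x, 0 ≤ B x x) (hinv : ∀ g x y, B (A g x) (A g y) = B x y) :
    ∃ (H : Type u) (_ : NormedAddCommGroup H) (_ : InnerProductSpace ℝ H) (_ : CompleteSpace H)
      (ι : X →ₗ[ℝ] H) (U : G →* (H →L[ℝ] H)), (∀ x, ‖ι x‖ ^ 2 = B x x) ∧ DenseRange ι ∧
      (∀ g x, U g (ι x) = ι (A g x)) ∧ ∀ g v, ‖U g v‖ = ‖v‖ := by
  obtain ⟨H, i1, i2, i3, ι, hn, hd⟩ := hi_space B hsymm hpos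
  have hnorm : ∀ g x, ‖ι (A g x)‖ = ‖ι x‖ := by
    intro g x
    have h : ‖ι (A g x)‖ ^ 2 = ‖ι x‖ ^ 2 := by rw [hn, hn, hinv]
    exact (sq_eq_sq₀ (norm_nonneg _) (norm_nonneg _)).1 h
  let V : G → (H →L[ℝ] H) := fun g =>
    LinearMap.extendOfNorm (ι.comp (A g).toLinearMap) ι
  have hV : ∀ g x, V g (ι x) = ι (A g x) := by
    intro g x
    have h := LinearMap.extendOfNorm_eq (f := ι.comp (A g).toLinearMap) (e := ι) hd
      ⟨1, fun y => by simp [hnorm g y]⟩ x
    exact h
  have hone : V 1 = 1 := by
    apply ContinuousLinearMap.coeFn_injective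
    refine hd.equalizer (V 1).continuous (ContinuousLinearMap.continuous _) ?_
    funext x
    simp [hV]
  have hmul : ∀ g h, V (g * h) = V g * V h := by
    intro g h
    apply ContinuousLinearMap.coeFn_injective
    refine hd.equalizer (V (g * h)).continuous (ContinuousLinearMap.continuous _) ?_
    funext x
    simp [hV]
  refine ⟨H, i1, i2, i3, ι, ⟨⟨V, hone⟩, hmul⟩, hn, hd, hV, ?_⟩
  intro g v
  have hc : (fun v => ‖V g v‖) = fun v => ‖v‖ := by
    refine hd.equalizer (continuous_norm.comp (V g).continuous) continuous_norm ?_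
    funext x
    simp [hV, hnorm]
  exact congrFun hc v

end Pool.Agent.Comb7f333f.DPart
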