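import Mathlib

set_option autoImplicit false

/-!
No small subgroups: an operator all of whose powers are uniformly close to the identity is the
identity.
-/

namespace Pool.Agent.Comb7f333f.DPart

open Filter Topology

/-! ### Module NSS: no small subgroups -/

theorem ns_sum_pow {H : Type*} [NormedAddCommGroup H] [NormedSpace ℝ H]
    (U : H →L[ℝ] H) (v : H) (n : ℕ) :
    ∑ k ∈ Finset.range n, (U ^ k) (U v - v) = (U ^ n) v - v := by
  have h := Finset.sum_range_sub (fun k => (U ^ k) v) n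
  simp only [pow_zero, one_apply_eq_self] at h
  rw [← h]
  refine Finset.sum_congr rfl fun k _ => ?_
  rw [map_sub, pow_succ]
  rfl

theorem ns_bound {H : Type*} [NormedAddCommGroup H] [NormedSpace ℝ H]
    (U : H →L[ℝ] H) (r : ℝ)
    (hpow : ∀ (n : ℕ) (v : H), ‖(U ^ n) v - v‖ ≤ r * ‖v‖) (v : H) (n : ℕ) :
    (n : ℝ) * ‖U v - v‖ ≤ n * (r * ‖U v - v‖) + r * ‖v‖ := by
  set x : H := U v - v with hx
  have h1 : (n : ℝ) • x = ((U ^ n) v - v) - ∑ k ∈ Finset.range n, ((U ^ k) x - x) := by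
    rw [Finset.sum_sub_distrib, ns_sum_pow, Finset.sum_const, Finset.card_range,
      Nat.cast_smul_eq_nsmul ℝ n x]
    abel
  have h2 : ‖(n : ℝ) • x‖ = (n : ℝ) * ‖x‖ := by
    rw [norm_smul, Real.norm_natCast]
  rw [← h2, h1]
  have h3 : ‖∑ k ∈ Finset.range n, ((U ^ k) x - x)‖ ≤ n * (r * ‖x‖) := by
    refine (norm_sum_le _ _).trans ?_
    refine (Finset.sum_le_sum fun k _ => hpow k x).trans ?_
    rw [Finset.sum_const, Finset.card_range, nsmul_eq_mul]
  have h4 := norm_sub_le ((U ^ n) v - v) (∑ k ∈ Finset.range n, ((U ^ k) x - x))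
  have h5 := hpow n v
  linarith

theorem eq_one_of_pow_close {H : Type*} [NormedAddCommGroup H] [NormedSpace ℝ H]
    (U : H →L[ℝ] H) (hU : ∀ v, ‖U v‖ = ‖v‖) (r : ℝ) (hr : r < 1)
    (hpow : ∀ (n : ℕ) (v : H), ‖(U ^ n) v - v‖ ≤ r * ‖v‖) : U = 1 := by
  have _ := hU
  ext v
  rw [one_apply_eq_self]
  by_contra hne
  have hpos : 0 < ‖U v - v‖ := norm_pos_iff.2 (sub_ne_zero.2 hne)
  have hpos' : 0 < (1 - r) * ‖U v - v‖ := mul_pos (sub_pos.2 hr) hpos
  obtain ⟨n, hn⟩ := exists_nat_gt (r * ‖v‖ / ((1 - r) * ‖U v - v‖))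
  have h1 := ns_bound U r hpow v n
  rw [div_lt_iff₀ hpos'] at hn
  linarith

end Pool.Agent.Comb7f333f.DPart
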